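import Pool.Agent.T2H20.FB.Stm

/-! # FB package CN1 (project FB of helper20, MP_1c575b_co)

For s ∈ FF k (3^(j0+J)+k+1) n and j < J put q = 3^(j0+j) ≥ k(k+1); q + k + 1 ≤ count k s. P_TRQ gives d, a, b and s' = sh (s - replicate q k) d a b ∈ G1 n (choice; `Function.choose`).
The map (s, j) ↦ s' is injective: count 1 s' = a (1 ∉ s, d + b ≥ k ≥ 2), so k q ≤ 2 a ≤ 2 k q; if (s1,j1), (s2,j2) have the same s' then a1 = a2, k q1 ≤ 2 a ≤ 2 k q2, so q1 ≤ 2 q2 and symmetrically, and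
powers of 3 within a factor 2 are equal: j1 = j2. Then b1 = kq - a = b2, the largest element of s' is d + b (all elements of s - replicate q k are ≤ d, ones), so d1 = d2,
and cancelling in sh gives (s1 - replicate q k).erase d = (s2 - ...).erase d, hence s1 = s2.
Finite: G1 n ⊆ Par (2n). So J * ncard FF = ncard (FF ×ˢ range J) ≤ ncard G1 (`Set.ncard_le_ncard_of_injOn`, or Finset.card).
-/

namespace Pool.Agent.T2H20.FB

open Multiset

namespace CN1

lemma count_sh {r : Multiset ℕ} {d a b : ℕ} (h1 : 1 ∉ r) (hd : 2 ≤ d) : (sh r d a b).count 1 = a := by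
  rw [sh, Multiset.count_cons_of_ne (by omega), Multiset.count_add,
    Multiset.count_eq_zero_of_notMem (fun h => h1 (Multiset.mem_of_mem_erase h)),
    Multiset.count_replicate_self, zero_add]

lemma le_of_sh {r1 r2 : Multiset ℕ} {d1 d2 a b : ℕ} (h2 : IsMx r2 d2) (hd2 : 1 ≤ d2)
    (he : sh r1 d1 a b = sh r2 d2 a b) : d1 ≤ d2 := by
  have hm : d1 + b ∈ sh r2 d2 a b := by
    rw [← he]; exact Multiset.mem_cons_self _ _
  rw [sh, Multiset.mem_cons, Multiset.mem_add] at hm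
  rcases hm with h | h | h
  · omega
  · have := h2.2 _ (Multiset.mem_of_mem_erase h)
    omega
  · have := Multiset.eq_of_mem_replicate h
    omega

lemma sh_inj {r1 r2 : Multiset ℕ} {d1 d2 a b : ℕ} (h1 : IsMx r1 d1) (h2 : IsMx r2 d2)
    (hd1 : 1 ≤ d1) (hd2 : 1 ≤ d2) (he : sh r1 d1 a b = sh r2 d2 a b) : r1 = r2 := by
  have hd : d1 = d2 := le_antisymm (le_of_sh h2 hd2 he) (le_of_sh h1 hd1 he.symm)
  subst hd
  rw [sh, sh, Multiset.cons_inj_right, add_left_inj] at he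
  rw [← Multiset.cons_erase h1.1, he, Multiset.cons_erase h2.1]

lemma pow3 {j0 j1 j2 : ℕ} (h : 3 ^ (j0 + j2) ≤ 2 * 3 ^ (j0 + j1)) : j2 ≤ j1 := by
  by_contra hlt
  push Not at hlt
  have h1 : 3 ^ (j0 + j1 + 1) ≤ 3 ^ (j0 + j2) := Nat.pow_le_pow_right (by norm_num) (by omega)
  have h2 : 0 < 3 ^ (j0 + j1) := by positivity
  rw [pow_succ] at h1
  omega

end CN1

open CN1 in
theorem T_CN1 (hQ : P_TRQ) (hP : P_PAR) : P_CN1 := by
  intro n k J j0 hk hkj
  set M := 3 ^ (j0 + J) + k + 1 with hM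
  have hfin1 : (G1 n).Finite := (hP.1 (2 * n)).subset fun s hs => hs.1
  have hfin : (FF k M n).Finite := hfin1.subset fun s hs => hs.1
  have hex : ∀ p : Multiset ℕ × ℕ, p ∈ (FF k M n) ×ˢ (Set.Iio J) → ∃ d a b : ℕ, IsMx p.1 d ∧
      IsMx (p.1 - replicate (3 ^ (j0 + p.2)) k) d ∧ a + b = k * 3 ^ (j0 + p.2) ∧
      k * 3 ^ (j0 + p.2) ≤ 2 * a ∧ sh (p.1 - replicate (3 ^ (j0 + p.2)) k) d a b ∈ G1 n := by
    rintro ⟨s, j⟩ ⟨⟨hs1, hs2, hs3⟩, hj⟩
    have hj' : j < J := hj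
    have hpow : 3 ^ (j0 + j) ≤ 3 ^ (j0 + J) := Nat.pow_le_pow_right (by norm_num) (by omega)
    have hpow0 : 3 ^ j0 ≤ 3 ^ (j0 + j) := Nat.pow_le_pow_right (by norm_num) (by omega)
    have hs3' : M ≤ s.count k := hs3
    refine hQ n k (3 ^ (j0 + j)) hk (hkj.trans hpow0) s hs1 hs2 (le_trans ?_ hs3')
    rw [hM]; gcongr
  choose! d a b h using hex
  have hcard : (FF k M n ×ˢ Set.Iio J).ncard = J * (FF k M n).ncard := by
    rw [Set.ncard_prod, mul_comm]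
    congr 1
    simp [Set.ncard_eq_toFinset_card']
  rw [← hcard]
  refine Set.ncard_le_ncard_of_injOn
    (fun p => sh (p.1 - replicate (3 ^ (j0 + p.2)) k) (d p) (a p) (b p)) (fun p hp => (h p hp).2.2.2.2)
    ?_ hfin1
  rintro ⟨s1, j1⟩ hp1 ⟨s2, j2⟩ hp2 he
  have H1 := h _ hp1
  have H2 := h _ hp2
  obtain ⟨⟨hs1, ho1, hc1⟩, hj1⟩ := hp1
  obtain ⟨⟨hs2, ho2, hc2⟩, hj2⟩ := hp2
  dsimp only at *
  set d1 := d (s1, j1)
  set d2 := d (s2, j2)
  set a1 := a (s1, j1)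
  set a2 := a (s2, j2)
  set b1 := b (s1, j1)
  set b2 := b (s2, j2)
  have hM1 : 0 < M := by rw [hM]; positivity
  have hMp : 3 ^ (j0 + J) ≤ M := by rw [hM]; omega
  have hc1' : M ≤ s1.count k := hc1
  have hc2' : M ≤ s2.count k := hc2
  have hk1 : k ∈ s1 := Multiset.count_pos.mp (lt_of_lt_of_le hM1 hc1')
  have hk2 : k ∈ s2 := Multiset.count_pos.mp (lt_of_lt_of_le hM1 hc2')
  have hd1 : k ≤ d1 := H1.1.2 k hk1
  have hd2 : k ≤ d2 := H2.1.2 k hk2
  have ha : a1 = a2 := by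
    have e1 := count_sh (r := s1 - replicate (3 ^ (j0 + j1)) k) (d := d1) (a := a1) (b := b1)
      (fun h => ho1 (Multiset.mem_of_le tsub_le_self h)) (by omega)
    have e2 := count_sh (r := s2 - replicate (3 ^ (j0 + j2)) k) (d := d2) (a := a2) (b := b2)
      (fun h => ho2 (Multiset.mem_of_le tsub_le_self h)) (by omega)
    rw [← e1, he, e2]
  have hkpos : 0 < k := by omega
  have q12 : 3 ^ (j0 + j1) ≤ 2 * 3 ^ (j0 + j2) := by
    have : k * 3 ^ (j0 + j1) ≤ k * (2 * 3 ^ (j0 + j2)) := by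
      have e1 := H1.2.2.2.1
      have e2 := H2.2.2.1
      calc k * 3 ^ (j0 + j1) ≤ 2 * a1 := e1
        _ ≤ 2 * (k * 3 ^ (j0 + j2)) := by omega
        _ = k * (2 * 3 ^ (j0 + j2)) := by ring
    exact Nat.le_of_mul_le_mul_left this hkpos
  have q21 : 3 ^ (j0 + j2) ≤ 2 * 3 ^ (j0 + j1) := by
    have : k * 3 ^ (j0 + j2) ≤ k * (2 * 3 ^ (j0 + j1)) := by
      have e1 := H2.2.2.2.1
      have e2 := H1.2.2.1
      calc k * 3 ^ (j0 + j2) ≤ 2 * a2 := e1
        _ ≤ 2 * (k * 3 ^ (j0 + j1)) := by omega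
        _ = k * (2 * 3 ^ (j0 + j1)) := by ring
    exact Nat.le_of_mul_le_mul_left this hkpos
  have hj : j1 = j2 := le_antisymm (pow3 q12) (pow3 q21)
  have hb : b1 = b2 := by
    have e1 := H1.2.2.1
    have e2 := H2.2.2.1
    rw [← hj, ← ha] at e2
    omega
  rw [← ha, ← hb, ← hj] at he
  have hr := sh_inj H1.2.1 (by rw [hj]; exact H2.2.1) (by omega) (by omega) he
  have l1 : replicate (3 ^ (j0 + j1)) k ≤ s1 := by
    rw [← Multiset.le_count_iff_replicate_le]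
    have hj' : j1 < J := hj1
    have hpow : 3 ^ (j0 + j1) ≤ 3 ^ (j0 + J) := Nat.pow_le_pow_right (by norm_num) (by omega)
    exact (hpow.trans hMp).trans hc1'
  have l2 : replicate (3 ^ (j0 + j1)) k ≤ s2 := by
    rw [← Multiset.le_count_iff_replicate_le]
    have hj' : j1 < J := hj1
    have hpow : 3 ^ (j0 + j1) ≤ 3 ^ (j0 + J) := Nat.pow_le_pow_right (by norm_num) (by omega)
    exact (hpow.trans hMp).trans hc2'
  have hs : s1 = s2 := by
    rw [← tsub_add_cancel_of_le l1, hr, tsub_add_cancel_of_le l2]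
  rw [hs, hj]

end Pool.Agent.T2H20.FB
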