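import Pool.Agent.T2H20.FB.Stm

/-! # FB package CN2 -/

namespace Pool.Agent.T2H20.FB

open Multiset

lemma cn2_count_mid (K : ℕ) (A : ℕ → ℕ) (j : ℕ) :
    (mid K A).count j = if j ∈ Finset.Icc 2 K then A j else 0 := by
  unfold mid
  rw [Multiset.count_sum']
  simp only [Multiset.count_replicate]
  rw [Finset.sum_ite_eq']

lemma cn2_sum_mid (K : ℕ) (A : ℕ → ℕ) :
    (mid K A).sum = ∑ j ∈ Finset.Icc 2 K, j * A j := by
  unfold mid
  have h : ∀ S : Finset ℕ, (∑ j ∈ S, replicate (A j) j : Multiset ℕ).sum = ∑ j ∈ S, j * A j := by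
    intro S
    induction S using Finset.induction_on with
    | empty => simp
    | insert a S ha ih =>
      rw [Finset.sum_insert ha, Finset.sum_insert ha, Multiset.sum_add, ih, Multiset.sum_replicate,
        smul_eq_mul, mul_comm]
  exact h _

lemma cn2_mem_mid (K : ℕ) (A : ℕ → ℕ) (x : ℕ) (hx : x ∈ mid K A) : 2 ≤ x ∧ x ≤ K := by
  have h := Multiset.count_pos.2 hx
  rw [cn2_count_mid] at h
  split_ifs at h with h1
  · exact Finset.mem_Icc.1 h1
  · exact absurd h (lt_irrefl _)

theorem T_CN2 (hS : P_SPL) (hV : P_EXV) (hP : P_PAR) : P_CN2 := by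
  classical
  intro K M hK
  obtain ⟨n0, hn0⟩ := hV K M
  refine ⟨n0, fun n hn A hA => ?_⟩
  have hV' := hn0 n hn
  choose! d v c hd hv hr h8 hKc using hV'
  have hfinG : (GG n).Finite := (hP.1 (2 * n)).subset fun s hs => hs.1
  have hfinE : (EE K M n).Finite := hfinG.subset fun s hs => hs.1
  rw [Set.ncard_eq_toFinset_card _ hfinE, Set.ncard_eq_toFinset_card _ hfinG]
  set I : Finset ℕ := Finset.Icc 2 K with hI
  have hcardI : I.card = K - 1 := by rw [hI, Nat.card_Icc]; omega
  set ext : (I → Fin A) → ℕ → ℕ := fun B j => if h : j ∈ I then ((B ⟨j, h⟩ : Fin A) : ℕ) else 0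
    with hext
  set U : (I → Fin A) → ℕ := fun B => ∑ j ∈ I, j * ext B j with hU
  set s2 : Multiset ℕ → (I → Fin A) → Multiset ℕ := fun s B =>
    (s - replicate (c s) (v s)) + (replicate (c s * v s - U B) 1 + mid K (ext B)) with hs2
  -- facts about s in EE
  have hle : ∀ s ∈ EE K M n, replicate (c s) (v s) ≤ s := fun s hs =>
    (hr s hs).trans (Multiset.erase_le _ _)
  have hsum : ∀ s ∈ EE K M n, c s * v s + (s - replicate (c s) (v s)).sum = 2 * n := by
    intro s hs
    have h1 : replicate (c s) (v s) + (s - replicate (c s) (v s)) = s :=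
      add_tsub_cancel_of_le (hle s hs)
    have h2 := congrArg Multiset.sum h1
    rw [Multiset.sum_add, Multiset.sum_replicate, smul_eq_mul, hs.1.1.2] at h2
    exact h2
  have hUle : ∀ B, U B ≤ K ^ 2 * A := by
    intro B
    have h1 : ∀ j ∈ I, j * ext B j ≤ K * A := by
      intro j hj
      have h2 : ext B j ≤ A := by
        simp only [hext, hj, dif_pos]
        exact (B ⟨j, hj⟩).2.le
      exact Nat.mul_le_mul (Finset.mem_Icc.1 hj).2 h2
    calc U B ≤ I.card * (K * A) := by
          simpa [smul_eq_mul] using Finset.sum_le_card_nsmul I _ _ h1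
      _ ≤ K * (K * A) := Nat.mul_le_mul_right _ (by omega)
      _ = K ^ 2 * A := by ring
  have h2U : ∀ s ∈ EE K M n, ∀ B, 2 * U B ≤ c s * v s := by
    intro s hs B
    have h1 : 2 * (K ^ 2 * A) ≤ c s * v s := by
      by_contra hcon
      have h2 : c s * v s < 2 * (K ^ 2 * A) := by omega
      have h3 : (c s * v s) ^ 2 < (2 * (K ^ 2 * A)) ^ 2 := Nat.pow_lt_pow_left h2 (by norm_num)
      have h4 := h8 s hs
      have h5 : (2 * (K ^ 2 * A)) ^ 2 = 4 * K ^ 4 * A ^ 2 := by ring
      have h6 : 32 * K ^ 4 * A ^ 2 = 8 * (4 * K ^ 4 * A ^ 2) := by ring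
      omega
    have := hUle B
    omega
  have hGG : ∀ s ∈ EE K M n, ∀ B, s2 s B ∈ GG n := by
    intro s hs B
    have h1 := h2U s hs B
    refine ⟨⟨?_, ?_⟩, ?_⟩
    · intro x hx
      simp only [hs2, Multiset.mem_add] at hx
      rcases hx with hx | hx | hx
      · exact hs.1.1.1 x (Multiset.mem_of_le (Multiset.sub_le_self _ _) hx)
      · rw [Multiset.eq_of_mem_replicate hx]; norm_num
      · have := (cn2_mem_mid _ _ _ hx).1; omega
    · simp only [hs2]
      rw [Multiset.sum_add, Multiset.sum_add, Multiset.sum_replicate, cn2_sum_mid, smul_eq_mul,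
        mul_one]
      have h3 := hsum s hs
      have h4 : U B = ∑ j ∈ Finset.Icc 2 K, j * ext B j := rfl
      omega
    · simp only [hs2]
      refine hS K hK s (d s) hs.1.2 (hd s hs) (v s) (c s) _ (ext B) (hv s hs) (hr s hs) (hKc s hs)
        ?_ ?_
      · have h4 : U B = ∑ j ∈ Finset.Icc 2 K, j * ext B j := rfl
        omega
      · omega
  have hcount : ∀ s ∈ EE K M n, ∀ B, ∀ j ∈ I, (s2 s B).count j = s.count j + ext B j := by
    intro s hs B j hj
    have hj' := Finset.mem_Icc.1 hj
    have hvs := hv s hs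
    simp only [hs2]
    rw [Multiset.count_add, Multiset.count_add, Multiset.count_sub, Multiset.count_replicate,
      Multiset.count_replicate, cn2_count_mid, if_neg (by omega), if_neg (by omega), if_pos hj]
    omega
  have hcount1 : ∀ s ∈ EE K M n, ∀ B, (s2 s B).count 1 = c s * v s - U B := by
    intro s hs B
    have hvs := hv s hs
    simp only [hs2]
    rw [Multiset.count_add, Multiset.count_add, Multiset.count_sub, Multiset.count_replicate,
      Multiset.count_replicate, cn2_count_mid, if_neg (by omega), if_pos rfl, if_neg (by simp),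
      Multiset.count_eq_zero_of_notMem hs.2.1]
    omega
  -- the injection
  set dom := hfinE.toFinset ×ˢ (Finset.univ : Finset (I → Fin A)) with hdom
  set cod := (Finset.range (2 * n + 1) ×ˢ Finset.range (2 * n + 1)) ×ˢ
    ((Fintype.piFinset fun _ : I => Finset.range M) ×ˢ hfinG.toFinset) with hcod
  set φ : Multiset ℕ × (I → Fin A) → (ℕ × ℕ) × ((I → ℕ) × Multiset ℕ) := fun p =>
    ((v p.1, c p.1), (fun j : I => p.1.count (j : ℕ), s2 p.1 p.2)) with hφ
  have hmaps : ∀ p ∈ dom, φ p ∈ cod := by
    rintro ⟨s, B⟩ hp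
    rw [hdom, Finset.mem_product, Set.Finite.mem_toFinset] at hp
    have hs : s ∈ EE K M n := hp.1
    have h1 := hsum s hs
    have h2 := hKc s hs
    have h3 := hv s hs
    have h4 : 0 < c s := by
      rcases Nat.eq_zero_or_pos (c s) with h | h
      · rw [h] at h2
        have : 0 < K ^ 2 := by positivity
        omega
      · exact h
    have h5 : 0 < v s := by omega
    have h6 : v s ≤ c s * v s := Nat.le_mul_of_pos_left _ h4
    have h7 : c s ≤ c s * v s := Nat.le_mul_of_pos_right _ h5
    simp only [hφ, hcod, Finset.mem_product, Finset.mem_range, Fintype.mem_piFinset,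
      Set.Finite.mem_toFinset]
    refine ⟨⟨by omega, by omega⟩, fun j => ?_, hGG s hs B⟩
    have hj := Finset.mem_Icc.1 j.2
    exact hs.2.2 j hj.1 (by omega)
  have hinj : Set.InjOn φ (dom : Set (Multiset ℕ × (I → Fin A))) := by
    rintro ⟨s, B⟩ hp ⟨s', B'⟩ hp' heq
    rw [Finset.mem_coe, hdom, Finset.mem_product, Set.Finite.mem_toFinset] at hp hp'
    have hs : s ∈ EE K M n := hp.1
    have hs' : s' ∈ EE K M n := hp'.1
    simp only [hφ, Prod.mk.injEq] at heq
    obtain ⟨⟨hvv, hcc⟩, hcnt, h22⟩ := heq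
    have hBB : ∀ j ∈ I, ext B j = ext B' j := by
      intro j hj
      have h1 := hcount s hs B j hj
      have h2 := hcount s' hs' B' j hj
      have h3 : s.count j = s'.count j := congrFun hcnt ⟨j, hj⟩
      rw [h22] at h1
      omega
    have hBeq : B = B' := by
      funext j
      have h1 := hBB j j.2
      simp only [hext, Subtype.coe_eta, Finset.coe_mem, dif_pos] at h1
      exact Fin.ext h1
    have h1 := hcount1 s hs B
    have h2 := hcount1 s' hs' B'
    rw [h22] at h1
    have h3 : s - replicate (c s) (v s) = s' - replicate (c s') (v s') := by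
      have h4 := h22
      simp only [hs2] at h4
      rw [← h1, ← h2, hBeq] at h4
      exact add_right_cancel h4
    have h5 : s = s' := by
      rw [← tsub_add_cancel_of_le (hle s hs), ← tsub_add_cancel_of_le (hle s' hs'), h3, hvv, hcc]
    rw [h5, hBeq]
  have hfinal := Finset.card_le_card_of_injOn φ hmaps hinj
  rw [hdom, hcod, Finset.card_product, Finset.card_product, Finset.card_product,
    Finset.card_product, Finset.card_range, Fintype.card_piFinset, Finset.card_univ,
    Fintype.card_fun, Fintype.card_fin, Fintype.card_coe, hcardI] at hfinal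
  simp only [Finset.card_range, Finset.prod_const, Finset.card_univ, Fintype.card_coe, hcardI]
    at hfinal
  calc A ^ (K - 1) * hfinE.toFinset.card = hfinE.toFinset.card * A ^ (K - 1) := mul_comm _ _
    _ ≤ _ := hfinal
    _ = _ := by ring

end Pool.Agent.T2H20.FB
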