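import Pool.Agent.T2H20.FB.Stm

/-! # FB package CON (project FB of helper20, MP_1c575b_co; proof by helper18) -/

namespace Pool.Agent.T2H20.FB

open Multiset

namespace PkgCON

open Pool.Agent.H51.EG

lemma inner_le2 {n : ℕ} {A : Fin n → Fin n → ℤ} (hA : IsMat A) (K : Finset (Fin n))
    {u w : Fin n} (hu : u ∈ K) (hw : w ∈ K) (huw : u ≠ w) (h : A u w = 0) :
    ∑ i ∈ K, ∑ j ∈ K, A i j ≤ (K.card : ℤ) * (K.card - 1) - 2 := by
  classical
  have h0 : ∀ i ∈ K, ∑ j ∈ K, A i j ≤ ∑ j ∈ K, (1 - (if j = i then (1 : ℤ) else 0) -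
      ((if i = u then (if j = w then (1 : ℤ) else 0) else 0) +
       (if i = w then (if j = u then (1 : ℤ) else 0) else 0))) := by
    intro i _
    refine Finset.sum_le_sum fun j _ => ?_
    by_cases hji : j = i
    · subst hji
      rw [hA.2.2, if_pos rfl]
      have e1 : ¬ (j = u ∧ j = w) := fun h' => huw (h'.1.symm.trans h'.2)
      by_cases hju : j = u
      · have : j ≠ w := fun h' => e1 ⟨hju, h'⟩
        simp [this]
      · simp [hju]
    · rw [if_neg hji]
      by_cases hiu : i = u
      · by_cases hjw : j = w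
        · subst hiu hjw
          rw [h, if_pos rfl, if_pos rfl, if_neg huw]
          simp
        · rw [if_pos hiu, if_neg hjw]
          by_cases hiw : i = w
          · exact absurd (hiu.symm.trans hiw) huw
          · rw [if_neg hiw]
            have := mat_le hA i j
            omega
      · rw [if_neg hiu]
        by_cases hiw : i = w
        · by_cases hju : j = u
          · subst hiw hju
            rw [hA.2.1, h, if_pos rfl, if_pos rfl]
            simp
          · rw [if_pos hiw, if_neg hju]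
            have := mat_le hA i j
            omega
        · rw [if_neg hiw]
          have := mat_le hA i j
          omega
  have h1 := Finset.sum_le_sum h0
  refine h1.trans (le_of_eq ?_)
  have h2 : ∀ i ∈ K, ∑ j ∈ K, (1 - (if j = i then (1 : ℤ) else 0) -
      ((if i = u then (if j = w then (1 : ℤ) else 0) else 0) +
       (if i = w then (if j = u then (1 : ℤ) else 0) else 0))) =
      (K.card : ℤ) - 1 - ((if i = u then 1 else 0) + (if i = w then 1 else 0)) := by
    intro i hi
    rw [Finset.sum_sub_distrib, Finset.sum_sub_distrib, Finset.sum_ite_eq', if_pos hi,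
      Finset.sum_add_distrib]
    have e1 : ∑ j ∈ K, (if i = u then (if j = w then (1 : ℤ) else 0) else 0) =
        if i = u then 1 else 0 := by
      split_ifs with h'
      · rw [Finset.sum_ite_eq', if_pos hw]
      · simp
    have e2 : ∑ j ∈ K, (if i = w then (if j = u then (1 : ℤ) else 0) else 0) =
        if i = w then 1 else 0 := by
      split_ifs with h'
      · rw [Finset.sum_ite_eq', if_pos hu]
      · simp
    rw [e1, e2]
    simp
  rw [Finset.sum_congr rfl h2, Finset.sum_sub_distrib, Finset.sum_add_distrib, Finset.sum_const,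
    Finset.sum_ite_eq', if_pos hu, Finset.sum_ite_eq', if_pos hw, nsmul_eq_mul]
  ring

end PkgCON

open Pool.Agent.H51.EG in
theorem T_CON (hS : P_SUB) : P_CON := by
  classical
  rintro s hpos ⟨T, hT, hT0, hF⟩ m G hG
  obtain ⟨hS1, hS2⟩ := hS
  obtain ⟨f, hf⟩ : ∃ f : Fin m → ℕ, f = fun v => (G.neighborSet v).ncard := ⟨_, rfl⟩
  have hs : (Finset.univ : Finset (Fin m)).val.map f = s := by rw [hf]; exact hG
  obtain ⟨U, hU⟩ := hS1 m f T (by rw [hs]; exact hT)
  have hFU := (hS2 m f U).2
  rw [hs, hU] at hFU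
  rw [hFU] at hF
  have hUne : U.Nonempty := by
    rw [Finset.nonempty_iff_ne_empty]
    rintro rfl
    exact hT0 (by rw [← hU]; simp)
  have hfpos : ∀ i, 0 < f i := by
    intro i
    refine hpos _ ?_
    rw [← hs]
    exact Multiset.mem_map_of_mem _ (Finset.mem_univ i)
  have hA := ofG_isMat G
  have hAd : ∀ i, ∑ j, ofG G i j = (f i : ℤ) := by
    intro i
    rw [sum_ofG, hf]
  have hsplit := split_sum hA hAd U
  have hcard : 0 < U.card := Finset.card_pos.2 hUne
  -- the numbers of the neighbours in `U`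
  have he : ∀ j, ∑ i ∈ U, ofG G j i ≤ ((min (f j) U.card : ℕ) : ℤ) := by
    intro j
    have e1 : ∑ i ∈ U, ofG G j i ≤ f j := by
      rw [← hAd j]
      exact Finset.sum_le_sum_of_subset_of_nonneg (Finset.subset_univ _)
        (fun i _ _ => mat_nonneg hA _ _)
    have e2 : ∑ i ∈ U, ofG G j i ≤ U.card := by
      have := Finset.sum_le_card_nsmul U (fun i => ofG G j i) 1 (fun i _ => mat_le hA _ _)
      simpa using this
    push_cast
    exact le_min e1 e2
  have hdef : ∑ j ∈ Uᶜ, (((min (f j) U.card : ℕ) : ℤ) - ∑ i ∈ U, ofG G j i) =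
      ∑ j ∈ Uᶜ, ((min (f j) U.card : ℕ) : ℤ) - ∑ j ∈ Uᶜ, ∑ i ∈ U, ofG G j i :=
    Finset.sum_sub_distrib _ _
  have hdef0 : 0 ≤ ∑ j ∈ Uᶜ, (((min (f j) U.card : ℕ) : ℤ) - ∑ i ∈ U, ofG G j i) :=
    Finset.sum_nonneg fun j _ => sub_nonneg.2 (he j)
  -- `U` is a clique
  have hclique : ∀ u ∈ U, ∀ w ∈ U, u ≠ w → G.Adj u w := by
    intro u hu w hw huw
    by_contra hadj
    have h0 : ofG G u w = 0 := by
      rcases hA.1 u w with h | h
      · exact h
      · exact absurd ((ofG_adj G u w).1 h) hadj
    have h2 := PkgCON.inner_le2 hA U hu hw huw h0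
    linarith
  have hdef1 : ∑ j ∈ Uᶜ, (((min (f j) U.card : ℕ) : ℤ) - ∑ i ∈ U, ofG G j i) ≤ 1 := by
    have h2 := inner_le hA U
    linarith
  have hnb : ∀ x, ∑ i ∈ U, ofG G x i ≠ 0 → ∃ u ∈ U, G.Adj x u := by
    intro x hx
    obtain ⟨u, hu, hux⟩ := Finset.exists_ne_zero_of_sum_ne_zero hx
    refine ⟨u, hu, (ofG_adj G x u).1 ?_⟩
    rcases hA.1 x u with h | h
    · exact absurd h hux
    · exact h
  have hnbr : ∀ x, ∃ z, G.Adj x z := by
    intro x
    have h1 := hfpos x
    rw [hf] at h1
    simp only at h1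
    obtain ⟨z, hz⟩ := Set.nonempty_of_ncard_ne_zero h1.ne'
    exact ⟨z, hz⟩
  obtain ⟨u0, hu0⟩ := hUne
  have hr1 : ∀ u ∈ U, G.Reachable u0 u := by
    intro u hu
    by_cases h : u0 = u
    · rw [h]
    · exact (hclique u0 hu0 u hu h).reachable
  have hr2 : ∀ x, ∑ i ∈ U, ofG G x i ≠ 0 → G.Reachable u0 x := by
    intro x hx
    obtain ⟨u, hu, hxu⟩ := hnb x hx
    exact (hr1 u hu).trans hxu.symm.reachable
  have hr : ∀ x, G.Reachable u0 x := by
    intro x
    by_cases hxU : x ∈ U
    · exact hr1 x hxU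
    by_cases hx : ∑ i ∈ U, ofG G x i = 0
    swap
    · exact hr2 x hx
    obtain ⟨z, hz⟩ := hnbr x
    have hzU : z ∉ U := by
      intro hzU
      have h1 : ofG G x z = 0 :=
        (Finset.sum_eq_zero_iff_of_nonneg (fun i _ => mat_nonneg hA x i)).1 hx z hzU
      have h2 := (ofG_adj G x z).2 hz
      rw [h1] at h2
      exact absurd h2 (by norm_num)
    have hz0 : ∑ i ∈ U, ofG G z i ≠ 0 := by
      intro hz0
      have hxz : x ≠ z := hz.ne
      have hm : ∀ y, (1 : ℤ) ≤ ((min (f y) U.card : ℕ) : ℤ) := by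
        intro y
        exact_mod_cast le_min (hfpos y) hcard
      have hsub : ({x, z} : Finset (Fin m)) ⊆ Uᶜ := by
        intro y hy
        rw [Finset.mem_insert, Finset.mem_singleton] at hy
        rw [Finset.mem_compl]
        rcases hy with rfl | rfl
        · exact hxU
        · exact hzU
      have h3 := Finset.sum_le_sum_of_subset_of_nonneg hsub
        (f := fun j => ((min (f j) U.card : ℕ) : ℤ) - ∑ i ∈ U, ofG G j i)
        (fun j _ _ => sub_nonneg.2 (he j))
      rw [Finset.sum_pair hxz, hx, hz0] at h3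
      have h4 := hm x
      have h5 := hm z
      linarith
    exact (hr2 z hz0).trans hz.symm.reachable
  have hconn : G.Connected := by
    haveI : Nonempty (Fin m) := ⟨u0⟩
    exact ⟨fun x y => (hr x).symm.trans (hr y)⟩
  constructor
  · obtain ⟨z, hz⟩ := hnbr u0
    by_contra h
    have h1 : m ≤ 1 := not_lt.1 h
    have : u0 = z := by
      ext
      have := u0.2
      have := z.2
      omega
    exact hz.ne this
  · intro S hS
    have h1 : ((S : Set (Fin m))ᶜ) = Set.univ := by
      have : S = ∅ := Finset.card_eq_zero.1 (by omega)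
      rw [this]
      simp
    rw [h1]
    exact (SimpleGraph.induceUnivIso G).connected_iff.2 hconn

end Pool.Agent.T2H20.FB
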