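import Pool.Agent.T2H20.FB.Stm

/-! # FB package DIS (project FB of helper20, MP_1c575b_co; proof by helper18) -/

namespace Pool.Agent.T2H20.FB

open Multiset

namespace PkgDIS

/-- the disjoint union of a complete graph and `H` -/
def Gam (k : ℕ) {m : ℕ} (H : SimpleGraph (Fin m)) : SimpleGraph (Fin (k + 1) ⊕ Fin m) where
  Adj x y := match x, y with
    | Sum.inl a, Sum.inl b => a ≠ b
    | Sum.inr a, Sum.inr b => H.Adj a b
    | _, _ => False
  symm := ⟨fun x y h => by
    rcases x with a | a <;> rcases y with b | b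
    · exact Ne.symm h
    · exact h
    · exact h
    · exact SimpleGraph.Adj.symm (G := H) h⟩
  loopless := ⟨fun x h => by
    rcases x with a | a
    · exact h rfl
    · exact H.irrefl h⟩

lemma nb_inl (k : ℕ) {m : ℕ} (H : SimpleGraph (Fin m)) (a : Fin (k + 1)) :
    ((Gam k H).neighborSet (Sum.inl a)).ncard = k := by
  classical
  have h1 : (Gam k H).neighborSet (Sum.inl a) = Sum.inl '' ((({a} : Finset (Fin (k + 1)))ᶜ :
      Finset (Fin (k + 1))) : Set (Fin (k + 1))) := by
    ext x
    rcases x with b | b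
    · simp [Gam, SimpleGraph.mem_neighborSet, eq_comm]
    · simp [Gam, SimpleGraph.mem_neighborSet]
  rw [h1, Set.ncard_image_of_injective _ Sum.inl_injective, Set.ncard_coe_finset,
    Finset.card_compl, Finset.card_singleton, Fintype.card_fin, Nat.add_sub_cancel]

lemma nb_inr (k : ℕ) {m : ℕ} (H : SimpleGraph (Fin m)) (a : Fin m) :
    ((Gam k H).neighborSet (Sum.inr a)).ncard = (H.neighborSet a).ncard := by
  classical
  have h1 : (Gam k H).neighborSet (Sum.inr a) = Sum.inr '' (H.neighborSet a) := by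
    ext x
    rcases x with b | b
    · simp [Gam, SimpleGraph.mem_neighborSet]
    · simp [Gam, SimpleGraph.mem_neighborSet]
  rw [h1, Set.ncard_image_of_injective _ Sum.inr_injective]

/-- the same on `Fin` -/
def Gam' (k : ℕ) {m : ℕ} (H : SimpleGraph (Fin m)) : SimpleGraph (Fin (k + 1 + m)) :=
  (Gam k H).comap finSumFinEquiv.symm

lemma degs_eq (k : ℕ) {m : ℕ} (H : SimpleGraph (Fin m)) :
    degs (Gam' k H) = replicate (k + 1) k + degs H := by
  classical
  have h0 : ∀ v, ((Gam' k H).neighborSet v).ncard =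
      ((Gam k H).neighborSet (finSumFinEquiv.symm v)).ncard := by
    intro v
    have h1 : (Gam' k H).neighborSet v = finSumFinEquiv.symm ⁻¹'
        ((Gam k H).neighborSet (finSumFinEquiv.symm v)) := rfl
    rw [h1, ← Equiv.image_eq_preimage_symm,
      Set.ncard_image_of_injective _ (Equiv.injective _)]
  have h2 : (Finset.univ : Finset (Fin (k + 1) ⊕ Fin m)).val =
      (Finset.univ : Finset (Fin (k + 1 + m))).val.map finSumFinEquiv.symm := by
    rw [← Finset.map_univ_equiv (finSumFinEquiv (m := k + 1) (n := m)).symm]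
    rfl
  have h3 : degs (Gam' k H) = (Finset.univ : Finset (Fin (k + 1) ⊕ Fin m)).val.map
      fun x => ((Gam k H).neighborSet x).ncard := by
    unfold degs
    rw [h2, Multiset.map_map]
    exact Multiset.map_congr rfl fun v _ => h0 v
  rw [h3]
  have h4 : (Finset.univ : Finset (Fin (k + 1) ⊕ Fin m)).val =
      (Finset.univ : Finset (Fin (k + 1))).val.map Sum.inl +
      (Finset.univ : Finset (Fin m)).val.map Sum.inr := rfl
  rw [h4, Multiset.map_add, Multiset.map_map, Multiset.map_map]
  congr 1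
  · refine Multiset.eq_replicate.2 ⟨by simp, fun b hb => ?_⟩
    obtain ⟨a, -, rfl⟩ := Multiset.mem_map.1 hb
    exact nb_inl k H a
  · exact Multiset.map_congr rfl (fun a _ => nb_inr k H a)

end PkgDIS

open PkgDIS in
theorem T_DIS : P_DIS := by
  classical
  rintro s k ⟨-, hF⟩ hle hne ⟨m, H, hH⟩
  have hs : degs (Gam' k H) = s := by
    rw [degs_eq, hH, add_comm]
    exact Multiset.sub_add_cancel hle
  obtain ⟨-, hconn⟩ := hF _ _ hs
  have h1 := hconn ∅ (by simp)
  have hm : 0 < m := by
    rcases Nat.eq_zero_or_pos m with h | h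
    · exfalso
      subst h
      have h2 : s - replicate (k + 1) k = 0 := by
        rw [← hH]
        simp [degs]
      exact hne (le_antisymm (tsub_eq_zero_iff_le.1 h2) hle)
    · exact h
  have hc := h1.preconnected
    ⟨finSumFinEquiv (Sum.inl 0), by simp⟩ ⟨finSumFinEquiv (Sum.inr ⟨0, hm⟩), by simp⟩
  obtain ⟨w⟩ := hc
  obtain ⟨e, _, h2, h3⟩ := w.exists_boundary_dart
    {x | ∃ a : Fin (k + 1), finSumFinEquiv.symm (x : Fin (k + 1 + m)) = Sum.inl a}
    ⟨0, by simp⟩ (by
      rintro ⟨a, ha⟩
      simp only [Equiv.symm_apply_apply] at ha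
      exact absurd ha (by simp))
  have h4 := e.adj
  simp only [SimpleGraph.comap_adj, Function.Embedding.subtype_apply, Gam'] at h4
  obtain ⟨a, ha⟩ := h2
  rw [ha] at h4
  rcases hx : finSumFinEquiv.symm (e.snd : Fin (k + 1 + m)) with b | b
  · exact h3 ⟨b, hx⟩
  · rw [hx] at h4
    exact h4

end Pool.Agent.T2H20.FB
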