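import Pool.Agent.T2H20.FB.Stm

/-! # FB package EGN -/

namespace Pool.Agent.T2H20.FB

open Multiset Pool.Agent.H51.EG

theorem T_EGN (hS : P_SUB) : P_EGN := by
  classical
  rintro s ⟨m, G, rfl⟩
  set f : Fin m → ℕ := fun v => (G.neighborSet v).ncard with hf
  have hdegs : degs G = (Finset.univ : Finset (Fin m)).val.map f := rfl
  have hGr : Gr f := gr_of_realizes (G := G) fun i => rfl
  constructor
  · have h1 : (degs G).sum = ∑ v, G.degree v := by
      rw [hdegs]
      change ∑ v, f v = _
      refine Finset.sum_congr rfl fun v _ => ?_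
      simp only [hf]
      rw [Set.ncard_eq_toFinset_card', ← SimpleGraph.card_neighborFinset_eq_degree]
      rfl
    rw [h1, G.sum_degrees_eq_twice_card_edges]
    exact even_two_mul _
  · intro T hT
    rw [hdegs] at hT ⊢
    obtain ⟨U, rfl⟩ := hS.1 m f T hT
    rw [(hS.2 m f U).2]
    have h2 := eg_nec hGr U
    rcases Nat.eq_zero_or_pos U.card with hk | hk
    · rw [Finset.card_eq_zero] at hk
      subst hk
      simp
    · have h5 : ((U.card * (U.card - 1) : ℕ) : ℤ) = (U.card : ℤ) * ((U.card : ℤ) - 1) := by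
        rw [Nat.cast_mul, Nat.cast_sub hk]; rfl
      have h6 : ((∑ i ∈ U, f i : ℕ) : ℤ)
          ≤ ((U.card * (U.card - 1) + ∑ i ∈ Uᶜ, min (f i) U.card : ℕ) : ℤ) := by
        exact_mod_cast h2
      rw [Nat.cast_add, h5, Nat.cast_sum, Nat.cast_sum] at h6
      linarith

end Pool.Agent.T2H20.FB
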