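import Pool.Agent.T2H20.FB.Stm

/-! # FB package EGS -/

namespace Pool.Agent.T2H20.FB

open Multiset Pool.Agent.H51.EG

theorem T_EGS (hS : P_SUB) : P_EGS := by
  classical
  intro s
  induction s using Quotient.inductionOn with
  | h l =>
    intro hev hF
    set f : Fin l.length → ℕ := l.get with hf
    have hl : (Finset.univ : Finset (Fin l.length)).val.map f = (l : Multiset ℕ) := by
      rw [Fin.univ_val_map, hf, List.ofFn_get]
    have hG : Gr f := by
      refine eg_subset f ?_ fun K => ?_
      · have h1 : ∑ i, f i = (l : Multiset ℕ).sum := by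
          rw [← hl]; rfl
        rw [h1]
        exact hev
      · have h1 := hS.2 l.length f K
        have h2 := hF (K.val.map f) (by
          have := h1.1
          rw [hl] at this
          exact this)
        have h3 := h1.2
        rw [hl] at h3
        have h4 : (0 : ℤ) ≤ (K.card : ℤ) * ((K.card : ℤ) - 1) + ∑ i ∈ Kᶜ, ((min (f i) K.card : ℕ) : ℤ)
            - ∑ i ∈ K, (f i : ℤ) := by
          rw [← h3]; exact h2
        rcases Nat.eq_zero_or_pos K.card with hk | hk
        · rw [Finset.card_eq_zero] at hk
          subst hk
          simp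
        · have h5 : ((K.card * (K.card - 1) : ℕ) : ℤ) = (K.card : ℤ) * ((K.card : ℤ) - 1) := by
            rw [Nat.cast_mul, Nat.cast_sub hk]; rfl
          have h6 : ((∑ i ∈ K, f i : ℕ) : ℤ)
              ≤ ((K.card * (K.card - 1) + ∑ i ∈ Kᶜ, min (f i) K.card : ℕ) : ℤ) := by
            rw [Nat.cast_add, h5, Nat.cast_sum, Nat.cast_sum]
            linarith
          exact_mod_cast h6
    obtain ⟨A, hA, hd⟩ := hG
    have hR := toG_realizes hA hd
    refine ⟨l.length, toG A hA, ?_⟩
    unfold degs
    have h7 : (fun v => ((toG A hA).neighborSet v).ncard) = f := by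
      funext v
      exact hR v
    rw [h7]
    exact hl

end Pool.Agent.T2H20.FB
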