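import Pool.Agent.T2H20.FB.Stm

/-! # FB package EXV (project FB of helper20, MP_1c575b_co; proof by helper18) -/

namespace Pool.Agent.T2H20.FB

open Multiset

namespace PkgEXV

lemma sum_distinct (L : Finset ℕ) : L.card * (L.card - 1) ≤ 2 * ∑ v ∈ L, v := by
  classical
  induction L using Finset.induction_on_max with
  | empty => simp
  | insert a L ha ih =>
    have h1 : a ∉ L := fun h => lt_irrefl _ (ha a h)
    rw [Finset.card_insert_of_notMem h1, Finset.sum_insert h1]
    have h2 : L.card ≤ a := by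
      have : L ⊆ Finset.range a := fun x hx => Finset.mem_range.2 (ha x hx)
      simpa using Finset.card_le_card this
    have h3 : (L.card + 1) * (L.card + 1 - 1) = L.card * (L.card - 1) + 2 * L.card := by
      rcases Nat.eq_zero_or_pos L.card with h | h
      · rw [h]
      · obtain ⟨c, hc⟩ : ∃ c, L.card = c + 1 := ⟨L.card - 1, by omega⟩
        rw [hc]
        simp only [Nat.add_sub_cancel]
        ring
    omega

end PkgEXV

theorem T_EXV (hN : P_EGN) : P_EXV := by
  classical
  intro K M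
  refine ⟨48 * K ^ 2 * M + 512 * K ^ 4 + 1, fun n hn s hs => ?_⟩
  obtain ⟨⟨⟨hpos, hsum⟩, hgr⟩, h1, hcnt⟩ := hs
  have hn1 : 1 ≤ n := by omega
  have hge2 : ∀ x ∈ s, 2 ≤ x := by
    intro x hx
    have h2 := hpos x hx
    have h3 : x ≠ 1 := fun h => h1 (h ▸ hx)
    omega
  have hs0 : s ≠ 0 := by
    rintro rfl
    simp at hsum
    omega
  obtain ⟨x0, hx0⟩ := Multiset.exists_mem_of_ne_zero hs0
  obtain ⟨d, hds, hdmax⟩ : ∃ d ∈ s, ∀ y ∈ s, y ≤ d := by
    obtain ⟨d, hd, h⟩ := Finset.exists_max_image s.toFinset id ⟨x0, Multiset.mem_toFinset.2 hx0⟩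
    exact ⟨d, Multiset.mem_toFinset.1 hd, fun y hy => h y (Multiset.mem_toFinset.2 hy)⟩
  obtain ⟨r, hr⟩ : ∃ r, r = s.erase d := ⟨_, rfl⟩
  have hdr : d + r.sum = 2 * n := by
    rw [hr, ← Multiset.sum_cons, Multiset.cons_erase hds, hsum]
  have hrge : ∀ x ∈ r, 2 ≤ x := fun x hx => hge2 x (by rw [hr] at hx; exact Multiset.mem_of_mem_erase hx)
  have hdc : d ≤ card r := by
    have h2 := (hN s hgr).2 {d} (Multiset.singleton_le.2 hds)
    have h3 : s - {d} = r := by rw [hr, Multiset.sub_singleton]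
    unfold F at h2
    rw [h3, Multiset.card_singleton, Multiset.sum_singleton] at h2
    have h4 : (r.map fun y => min y 1).sum ≤ card r := by
      have h5 := Multiset.sum_le_card_nsmul (r.map fun y => min y 1) 1 (by
        intro x hx
        obtain ⟨y, -, rfl⟩ := Multiset.mem_map.1 hx
        exact min_le_right _ _)
      simpa using h5
    have h6 : ((r.map fun y => min y 1).sum : ℤ) ≤ card r := by exact_mod_cast h4
    have h7 : (d : ℤ) ≤ card r := by
      push_cast at h2 h6
      linarith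
    exact_mod_cast h7
  have hrs : 2 * card r ≤ r.sum := by
    have h5 := Multiset.card_nsmul_le_sum (s := r) (a := 2) hrge
    simpa [mul_comm] using h5
  have h43 : 4 * n ≤ 3 * r.sum := by omega
  have hrsum : r.sum = ∑ v ∈ r.toFinset, r.count v * v := by
    rw [Finset.sum_multiset_count]
    simp
  have hsplit := Finset.sum_filter_add_sum_filter_not r.toFinset (fun v => v < 4 * K)
    (fun v => r.count v * v)
  obtain ⟨L, hL⟩ : ∃ L, L = r.toFinset.filter (fun v => ¬ v < 4 * K) := ⟨_, rfl⟩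
  rw [← hL, ← hrsum] at hsplit
  have hsmall : ∑ v ∈ r.toFinset.filter (fun v => v < 4 * K), r.count v * v ≤ 16 * K ^ 2 * M := by
    have h2 : ∀ v ∈ r.toFinset.filter (fun v => v < 4 * K), r.count v * v ≤ M * (4 * K) := by
      intro v hv
      rw [Finset.mem_filter, Multiset.mem_toFinset] at hv
      have h3 : r.count v ≤ s.count v := by
        rw [hr]
        exact Multiset.count_le_of_le _ (Multiset.erase_le _ _)
      have h4 := hcnt v (hrge v hv.1) hv.2
      exact Nat.mul_le_mul (by omega) hv.2.le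
    have h3 := Finset.sum_le_card_nsmul _ _ _ h2
    have h4 : (r.toFinset.filter (fun v => v < 4 * K)).card ≤ 4 * K := by
      have : r.toFinset.filter (fun v => v < 4 * K) ⊆ Finset.range (4 * K) := fun x hx =>
        Finset.mem_range.2 (Finset.mem_filter.1 hx).2
      simpa using Finset.card_le_card this
    rw [smul_eq_mul] at h3
    calc _ ≤ _ := h3
      _ ≤ 4 * K * (M * (4 * K)) := Nat.mul_le_mul_right _ h4
      _ = 16 * K ^ 2 * M := by ring
  have hbig : n ≤ ∑ v ∈ L, r.count v * v := by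
    have h2 : 48 * K ^ 2 * M = 3 * (16 * K ^ 2 * M) := by ring
    obtain ⟨Z, hZ⟩ : ∃ Z, Z = 16 * K ^ 2 * M := ⟨_, rfl⟩
    rw [← hZ] at h2 hsmall
    omega
  have hbig2 : ∑ v ∈ L, r.count v * v ≤ 2 * n := by omega
  obtain ⟨v, hvL, hv⟩ : ∃ v ∈ L, n ≤ 8 * (r.count v * v) ^ 2 := by
    by_contra hcon
    push Not at hcon
    -- the number of values
    have hcp : ∀ v ∈ L, 1 ≤ r.count v := by
      intro v hv
      rw [hL, Finset.mem_filter, Multiset.mem_toFinset] at hv
      exact Multiset.one_le_count_iff_mem.2 hv.1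
    have h2 : ∑ v ∈ L, v ≤ 2 * n :=
      (Finset.sum_le_sum fun v hv => Nat.le_mul_of_pos_left v (hcp v hv)).trans hbig2
    have h3 := PkgEXV.sum_distinct L
    obtain ⟨m, hm⟩ : ∃ m, 8 * m ^ 2 < n ∧ ∀ v ∈ L, r.count v * v ≤ m := by
      by_cases hLe : L.Nonempty
      · obtain ⟨w, hw, hmax⟩ := Finset.exists_max_image L (fun v => r.count v * v) hLe
        exact ⟨_, hcon w hw, hmax⟩
      · rw [Finset.not_nonempty_iff_eq_empty] at hLe
        exact ⟨0, by omega, by rw [hLe]; simp⟩
    have h4 : n ≤ L.card * m := by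
      have := Finset.sum_le_card_nsmul L _ m hm.2
      rw [smul_eq_mul] at this
      exact hbig.trans this
    obtain ⟨l, hl⟩ : ∃ l, l = L.card := ⟨_, rfl⟩
    rw [← hl] at h3 h4
    have h5 : l * (l - 1) ≤ 4 * n := by omega
    -- `n ^ 2 ≤ l ^ 2 m ^ 2`, `8 m ^ 2 < n`, so `8 n < l ^ 2`
    have h6 : n * n ≤ (l * m) * (l * m) := Nat.mul_le_mul h4 h4
    have h7 : 8 * n < l * l := by
      by_contra h8
      have h8' : l * l ≤ 8 * n := not_lt.1 h8
      have h9 : 8 * (n * n) ≤ (l * l) * (8 * m ^ 2) := by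
        calc 8 * (n * n) ≤ 8 * ((l * m) * (l * m)) := Nat.mul_le_mul_left _ h6
          _ = (l * l) * (8 * m ^ 2) := by ring
      have h10 : (l * l) * (8 * m ^ 2) ≤ (8 * n) * (8 * m ^ 2) := Nat.mul_le_mul_right _ h8'
      have h11 : (8 * n) * (8 * m ^ 2) < (8 * n) * n :=
        Nat.mul_lt_mul_of_pos_left hm.1 (by omega)
      have h12 : 8 * (n * n) = (8 * n) * n := by ring
      omega
    have hl2 : 3 ≤ l := by
      by_contra h8
      have : l ≤ 2 := by omega
      have := Nat.mul_le_mul this this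
      omega
    obtain ⟨l', rfl⟩ : ∃ l', l = l' + 1 := ⟨l - 1, by omega⟩
    simp only [Nat.add_sub_cancel] at h5
    nlinarith
  have hvL' := hvL
  rw [hL, Finset.mem_filter, Multiset.mem_toFinset] at hvL'
  refine ⟨d, v, r.count v, ⟨hds, hdmax⟩, not_lt.1 hvL'.2, ?_, hv, ?_⟩
  · rw [← hr]
    exact Multiset.le_count_iff_replicate_le.1 le_rfl
  · by_contra h
    have h2 : r.count v * v < 8 * K ^ 2 := not_le.1 h
    have h3 : (r.count v * v) ^ 2 ≤ (8 * K ^ 2) ^ 2 := Nat.pow_le_pow_left h2.le 2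
    have h4 : 8 * (8 * K ^ 2) ^ 2 = 512 * K ^ 4 := by ring
    omega

end Pool.Agent.T2H20.FB
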