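import Pool.Agent.T2H20.FB.Stm

/-! # FB package LIM (project FB of helper20, MP_1c575b_co)

see P_LIM. Put K := 12. -/

namespace Pool.Agent.T2H20.FB

open Multiset

theorem LIM_aux (C n B : ℕ) (hC : 0 < C) (hB : 0 < B) (hn : C * B ^ 2 ≤ n) :
    ∃ A : ℕ, B ≤ A ∧ C * A ^ 2 ≤ n ∧ 2 * n + 1 ≤ 8 * C * A ^ 2 := by
  refine ⟨Nat.sqrt (n / C), ?_, ?_, ?_⟩
  · rw [Nat.le_sqrt', Nat.le_div_iff_mul_le hC]
    linarith [mul_comm C (B ^ 2)]
  · have h1 : Nat.sqrt (n / C) ^ 2 ≤ n / C := Nat.sqrt_le' _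
    calc C * Nat.sqrt (n / C) ^ 2 ≤ C * (n / C) := Nat.mul_le_mul_left _ h1
      _ ≤ n := Nat.mul_div_le n C
  · have hA : B ≤ Nat.sqrt (n / C) := by
      rw [Nat.le_sqrt', Nat.le_div_iff_mul_le hC]
      linarith [mul_comm C (B ^ 2)]
    set A := Nat.sqrt (n / C) with hAd
    have h2 : n / C < (A + 1) ^ 2 := Nat.lt_succ_sqrt' _
    have h3 : n < (A + 1) ^ 2 * C := (Nat.div_lt_iff_lt_mul hC).1 h2
    have h4 : (A + 1) ^ 2 ≤ 4 * A ^ 2 := by nlinarith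
    have h5 : (A + 1) ^ 2 * C ≤ 4 * A ^ 2 * C := Nat.mul_le_mul_right _ h4
    nlinarith

theorem LIM_real (ε : ℝ) (hε : 0 < ε) (J D B A g2 E S G : ℕ) (hJ : 96 / ε < J)
    (hB : 2 * (D : ℝ) / ε < B) (hBA : B ≤ A) (hA0 : 0 < A) (hb : g2 ≤ E + S)
    (hE : A * E ≤ D * G) (hS : J * S ≤ 48 * G) : (g2 : ℝ) ≤ ε * G := by
  have hJ0 : (0 : ℝ) < J := lt_trans (by positivity) hJ
  have hbR : (g2 : ℝ) ≤ (E : ℝ) + (S : ℝ) := by exact_mod_cast hb
  have hEER : (A : ℝ) * (E : ℝ) ≤ (D : ℝ) * (G : ℝ) := by exact_mod_cast hE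
  have hSR : (J : ℝ) * (S : ℝ) ≤ 48 * (G : ℝ) := by exact_mod_cast hS
  have hE0 : (0 : ℝ) ≤ (E : ℝ) := Nat.cast_nonneg _
  have hG0 : (0 : ℝ) ≤ (G : ℝ) := Nat.cast_nonneg _
  have hBA' : (B : ℝ) ≤ A := by exact_mod_cast hBA
  have hA0' : (0 : ℝ) < A := by exact_mod_cast hA0
  have hD1 : 2 * (D : ℝ) < B * ε := (div_lt_iff₀ hε).1 hB
  have hD2 : (B : ℝ) * ε ≤ A * ε := mul_le_mul_of_nonneg_right hBA' hε.le
  have h1 : (E : ℝ) ≤ ε / 2 * G := by
    have h2 : (A : ℝ) * E ≤ A * (ε / 2 * G) := by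
      have h3 : (D : ℝ) ≤ A * ε / 2 := by linarith
      have h4 : (D : ℝ) * G ≤ A * ε / 2 * G := mul_le_mul_of_nonneg_right h3 hG0
      calc (A : ℝ) * E ≤ (D : ℝ) * G := hEER
        _ ≤ A * ε / 2 * G := h4
        _ = A * (ε / 2 * G) := by ring
    exact le_of_mul_le_mul_left h2 hA0'
  have h2 : (S : ℝ) ≤ ε / 2 * G := by
    have h3 : 96 < (J : ℝ) * ε := (div_lt_iff₀ hε).1 hJ
    have h2 : (J : ℝ) * S ≤ J * (ε / 2 * G) := by
      have h4 : (48 : ℝ) * G ≤ J * ε / 2 * G :=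
        mul_le_mul_of_nonneg_right (by linarith) hG0
      calc (J : ℝ) * S ≤ 48 * G := hSR
        _ ≤ J * ε / 2 * G := h4
        _ = J * (ε / 2 * G) := by ring
    exact le_of_mul_le_mul_left h2 hJ0
  linarith

theorem T_LIM : P_LIM := by
  intro hC1 hC2 hPOL hBND hPar hPos
  have e1 : ∀ n, gf 1 n = (G1 n).ncard := fun n => hPar.2 (2 * n) (Forc 1)
  have e2 : ∀ n, gf 2 n = (G2 n).ncard := fun n => hPar.2 (2 * n) (Forc 2)
  have e3 : ∀ n, g n = (GG n).ncard := fun n => hPar.2 (2 * n) Graphical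
  have hpos : ∀ n, 1 ≤ n → 0 < gf 1 n := fun n hn => by rw [e1]; exact hPos n hn
  have hle : ∀ n, (G1 n).ncard ≤ (GG n).ncard := by
    intro n
    apply Set.ncard_le_ncard
    · intro s hs
      exact ⟨hs.1, hs.2.1⟩
    · exact (hPar.1 (2 * n)).subset (fun s hs => hs.1)
  have key : ∀ ε : ℝ, 0 < ε →
      ∃ n0 : ℕ, 1 ≤ n0 ∧ ∀ n, n0 ≤ n → ((G2 n).ncard : ℝ) ≤ ε * (G1 n).ncard := by
    intro ε hε
    obtain ⟨J, hJ⟩ := exists_nat_gt (96 / ε)
    obtain ⟨n1, hn1⟩ := hC2 12 (3 ^ (8 + J) + 49) (by norm_num)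
    obtain ⟨M, hM⟩ : ∃ M : ℕ, M = 3 ^ (8 + J) + 49 := ⟨_, rfl⟩
    rw [← hM] at hn1
    obtain ⟨D, hD⟩ : ∃ D : ℕ, D = 2 * (8 * (32 * 12 ^ 4)) ^ 5 * M ^ 11 := ⟨_, rfl⟩
    obtain ⟨B, hB⟩ := exists_nat_gt (2 * (D : ℝ) / ε)
    have hJ0 : (0 : ℝ) < J := lt_trans (by positivity) hJ
    have hB0 : (0 : ℝ) < B := lt_of_le_of_lt (by positivity) hB
    have hB0' : 0 < B := by exact_mod_cast hB0
    refine ⟨max n1 (max 1 ((32 * 12 ^ 4) * B ^ 2)), le_trans (le_max_left _ _) (le_max_right _ _),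
      fun n hn => ?_⟩
    have hnn1 : n1 ≤ n := le_trans (le_max_left _ _) hn
    have hn1' : 1 ≤ n := le_trans (le_trans (le_max_left _ _) (le_max_right _ _)) hn
    have hnB : (32 * 12 ^ 4) * B ^ 2 ≤ n :=
      le_trans (le_trans (le_max_right _ _) (le_max_right _ _)) hn
    obtain ⟨A, hBA, hA1, hA2⟩ := LIM_aux (32 * 12 ^ 4) n B (by norm_num) hB0' hnB
    have hA0 : 0 < A := lt_of_lt_of_le hB0' hBA
    -- the exceptional partitions
    have hEE : A * (EE 12 M n).ncard ≤ D * (G1 n).ncard := by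
      have h1 := hn1 n hnn1 A hA1
      have h2 := hPOL n hn1'
      have h3 : (2 * n + 1) ^ 5 ≤ (8 * (32 * 12 ^ 4)) ^ 5 * A ^ 10 := by
        calc (2 * n + 1) ^ 5 ≤ (8 * (32 * 12 ^ 4) * A ^ 2) ^ 5 := Nat.pow_le_pow_left hA2 5
          _ = (8 * (32 * 12 ^ 4)) ^ 5 * A ^ 10 := by rw [mul_pow, ← pow_mul]
      have h4 : A ^ 10 * (A * (EE 12 M n).ncard) ≤ A ^ 10 * (D * (G1 n).ncard) := by
        calc A ^ 10 * (A * (EE 12 M n).ncard) = A ^ (12 - 1) * (EE 12 M n).ncard := by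
              rw [← mul_assoc, ← pow_succ]
          _ ≤ (2 * n + 1) ^ 2 * M ^ (12 - 1) * (GG n).ncard := h1
          _ ≤ (2 * n + 1) ^ 2 * M ^ (12 - 1) * (2 * (2 * n + 1) ^ 3 * (G1 n).ncard) :=
              Nat.mul_le_mul_left _ h2
          _ = (2 * n + 1) ^ 5 * (2 * M ^ 11 * (G1 n).ncard) := by
              have e12 : (12 - 1 : ℕ) = 11 := rfl
              rw [e12]; ring
          _ ≤ (8 * (32 * 12 ^ 4)) ^ 5 * A ^ 10 * (2 * M ^ 11 * (G1 n).ncard) :=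
              Nat.mul_le_mul_right _ h3
          _ = A ^ 10 * (D * (G1 n).ncard) := by
              rw [hD]
              generalize (8 * (32 * 12 ^ 4)) ^ 5 = X
              ring
      exact Nat.le_of_mul_le_mul_left h4 (by positivity)
    -- the partitions with many equal parts
    have hFF : ∀ k ∈ Finset.Ico 2 (4 * 12), J * (FF k M n).ncard ≤ (G1 n).ncard := by
      intro k hk
      rw [Finset.mem_Ico] at hk
      have hk8 : k * (k + 1) ≤ 3 ^ 8 := by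
        have : k * (k + 1) ≤ 47 * 48 := Nat.mul_le_mul (by omega) (by omega)
        omega
      have h1 := hC1 n k J 8 hk.1 hk8
      refine le_trans (Nat.mul_le_mul_left _ ?_) h1
      apply Set.ncard_le_ncard
      · intro s hs
        refine ⟨hs.1, hs.2.1, le_trans ?_ hs.2.2⟩
        rw [hM]; omega
      · exact (hPar.1 (2 * n)).subset (fun s hs => hs.1.1)
    have hS : J * ∑ k ∈ Finset.Ico 2 (4 * 12), (FF k M n).ncard ≤ 48 * (G1 n).ncard := by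
      rw [Finset.mul_sum]
      refine le_trans (Finset.sum_le_card_nsmul _ _ _ hFF) ?_
      rw [Nat.card_Ico, smul_eq_mul]
      exact Nat.mul_le_mul_right _ (by norm_num)
    have hb := hBND 12 M n
    exact LIM_real ε hε J D B A _ _ _ _ hJ hB hBA hA0 hb hEE hS
  refine ⟨hpos, ?_, ?_⟩
  · rw [Metric.tendsto_atTop]
    intro ε hε
    obtain ⟨n0, hn01, hn0⟩ := key (ε / 2) (by positivity)
    refine ⟨n0, fun n hn => ?_⟩
    have h1 := hn0 n hn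
    have h2 : (0 : ℝ) < ((G1 n).ncard : ℝ) := by
      exact_mod_cast hPos n (le_trans hn01 hn)
    rw [e1, e2, Real.dist_eq, sub_zero, abs_of_nonneg (by positivity), div_lt_iff₀ h2]
    nlinarith
  · rw [Metric.tendsto_atTop]
    intro ε hε
    obtain ⟨n0, hn01, hn0⟩ := key (ε / 2) (by positivity)
    refine ⟨n0, fun n hn => ?_⟩
    have h1 := hn0 n hn
    have h2 : (0 : ℝ) < ((G1 n).ncard : ℝ) := by
      exact_mod_cast hPos n (le_trans hn01 hn)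
    have h3 : ((G1 n).ncard : ℝ) ≤ ((GG n).ncard : ℝ) := by exact_mod_cast hle n
    have h4 : (0 : ℝ) < ((GG n).ncard : ℝ) := lt_of_lt_of_le h2 h3
    rw [e3, e2, Real.dist_eq, sub_zero, abs_of_nonneg (by positivity), div_lt_iff₀ h4]
    nlinarith

end Pool.Agent.T2H20.FB
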