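import Pool.Agent.T2H20.FB.Stm

/-! # FB package NEAR -/

namespace Pool.Agent.T2H20.FB

open Multiset

theorem T_NEAR (hE : P_EGS) (hD : P_DIS) (hN : P_EGN) (hO : P_OPS) : P_NEAR := by
  classical
  intro s k hk hF hc
  have hw : replicate (k + 1) k ≤ s := Multiset.le_count_iff_replicate_le.1 (by omega)
  have hne : s ≠ replicate (k + 1) k := by
    intro h
    rw [h, Multiset.count_replicate, if_pos rfl] at hc
    omega
  have hsplit : (s - replicate (k + 1) k) + replicate (k + 1) k = s := tsub_add_cancel_of_le hw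
  set r := s - replicate (k + 1) k with hr
  have hev : Even r.sum := by
    have h1 := (hN s hF.1).1
    have h2 := congrArg Multiset.sum hsplit
    rw [Multiset.sum_add, Multiset.sum_replicate, smul_eq_mul] at h2
    have h3 : Even ((k + 1) * k) := by
      rw [mul_comm]; exact Nat.even_mul_succ_self k
    rw [← h2, Nat.even_add] at h1
    exact h1.2 h3
  have hng : ¬ Graphical r := hD s k hF hw hne
  have hex : ∃ T0 ≤ r, F r T0 < 0 := by
    by_contra hcon
    push Not at hcon
    exact hng (hE r hev hcon)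
  obtain ⟨T0, hT0, hF0⟩ := hex
  have hT00 : T0 ≠ 0 := by
    rintro rfl
    unfold F at hF0
    simp at hF0
  have hrs : r ≤ s := by rw [hr]; exact Multiset.sub_le_self _ _
  have hFs : F s T0 ≤ (k : ℤ) * (k + 1) - 1 := by
    have h1 := hO.2.2.2 r T0 (replicate (k + 1) k) hT0
    rw [hsplit] at h1
    rw [h1, Multiset.map_replicate, Multiset.sum_replicate, smul_eq_mul]
    have h2 : (((k + 1) * min k T0.card : ℕ) : ℤ) ≤ (((k + 1) * k : ℕ) : ℤ) := by
      exact_mod_cast Nat.mul_le_mul_left _ (min_le_left _ _)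
    push_cast at h2 ⊢
    linarith
  have hexc : ∃ c : ℕ, ∃ T ≤ s, T ≠ 0 ∧ F s T ≤ (k : ℤ) * (k + 1) - 1 ∧ T.card = c :=
    ⟨T0.card, T0, hT0.trans hrs, hT00, hFs, rfl⟩
  obtain ⟨T, hTs, hT0', hFT, hcard⟩ := Nat.find_spec hexc
  refine ⟨T, hTs, hT0', ?_, hFT⟩
  by_contra hcon
  have h1 : T.count k ≤ T.card := Multiset.count_le_card _ _
  have hkT : k ∈ T := Multiset.count_pos.1 (by omega)
  have h2 := hO.2.1 s T hTs k hkT (by omega)
  have h3 : (T.erase k).card = T.card - 1 := by
    rw [Multiset.card_erase_of_mem hkT]; rfl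
  have h4 : (T.erase k) ≠ 0 := by
    intro h
    rw [h, Multiset.card_zero] at h3
    omega
  have h5 := Nat.find_min hexc (m := T.card - 1) (by omega)
  exact h5 ⟨T.erase k, (Multiset.erase_le _ _).trans hTs, h4, h2.trans hFT, h3⟩

end Pool.Agent.T2H20.FB
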