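import Pool.Agent.T2H20.FB.Stm

/-! # FB package NO1 (project FB of helper20, MP_1c575b_co)

A vertex of degree one is separated by its neighbour.
-/

namespace Pool.Agent.T2H20.FB

open Multiset

theorem T_NO1 : P_NO1 := by
  classical
  intro s hs
  obtain ⟨hg, hf⟩ := hs
  refine ⟨?_, hg, fun m G hG => ?_⟩
  · intro h1
    obtain ⟨m, G, hG⟩ := hg
    obtain ⟨hm, hc⟩ := hf m G hG
    rw [← hG] at h1
    unfold degs at h1
    obtain ⟨w, -, hw⟩ := Multiset.mem_map.1 h1
    obtain ⟨x, hx⟩ := Set.ncard_eq_one.1 hw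
    have hwx : G.Adj w x := by
      have : x ∈ G.neighborSet w := by rw [hx]; exact Set.mem_singleton x
      exact this
    have honly : ∀ y, G.Adj w y → y = x := by
      intro y hy
      have : y ∈ G.neighborSet w := hy
      rwa [hx, Set.mem_singleton_iff] at this
    obtain ⟨z, hz⟩ : ∃ z : Fin m, z ∉ ({w, x} : Finset (Fin m)) := by
      by_contra hcon
      push Not at hcon
      have h2 : (Finset.univ : Finset (Fin m)).card ≤ ({w, x} : Finset (Fin m)).card :=
        Finset.card_le_card fun y _ => hcon y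
      rw [Finset.card_univ, Fintype.card_fin] at h2
      have h3 : ({w, x} : Finset (Fin m)).card ≤ 2 := Finset.card_le_two
      omega
    rw [Finset.mem_insert, Finset.mem_singleton, not_or] at hz
    have hcon := hc {x} (by rw [Finset.card_singleton]; norm_num)
    have hwS : w ∈ ((({x} : Finset (Fin m)) : Set (Fin m))ᶜ) := by
      rw [Set.mem_compl_iff, Finset.mem_coe, Finset.mem_singleton]
      exact hwx.ne
    have hzS : z ∈ ((({x} : Finset (Fin m)) : Set (Fin m))ᶜ) := by
      rw [Set.mem_compl_iff, Finset.mem_coe, Finset.mem_singleton]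
      exact hz.2
    obtain ⟨p⟩ := hcon.preconnected ⟨w, hwS⟩ ⟨z, hzS⟩
    cases p with
    | nil => exact hz.1 rfl
    | @cons _ y _ h _ =>
      have h2 : G.Adj w y.1 := h
      have h3 := honly _ h2
      have h4 := y.2
      rw [Set.mem_compl_iff, Finset.mem_coe, Finset.mem_singleton] at h4
      exact h4 h3
  · obtain ⟨hm, hc⟩ := hf m G hG
    exact ⟨by omega, fun S hS => hc S (by omega)⟩

end Pool.Agent.T2H20.FB
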