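import Pool.Agent.T2H20.FB.Stm

/-! # FB package OPS (project FB of helper20, MP_1c575b_co)

All four are direct computations with F.
-/

namespace Pool.Agent.T2H20.FB

open Multiset

namespace OPS

lemma F_add (T R : Multiset ℕ) : F (T + R) T =
    (T.card : ℤ) * ((T.card : ℤ) - 1) + ((R.map (fun y => min y T.card)).sum : ℤ) - (T.sum : ℤ) := by
  unfold F
  rw [add_tsub_cancel_left]

lemma sum_mono (R : Multiset ℕ) (k : ℕ) :
    (R.map (fun y => min y k)).sum ≤ (R.map (fun y => min y (k + 1))).sum :=
  Multiset.sum_map_le_sum_map _ _ fun y _ => by omega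

end OPS

open OPS

theorem T_OPS : P_OPS := by
  refine ⟨?_, ?_, ?_, ?_⟩
  · intro s T hT x hx y hy hxy
    obtain ⟨R, rfl⟩ := Multiset.le_iff_exists_add.1 hT
    rw [add_tsub_cancel_left] at hy
    obtain ⟨T', rfl⟩ := Multiset.exists_cons_of_mem hx
    obtain ⟨R', rfl⟩ := Multiset.exists_cons_of_mem hy
    rw [Multiset.erase_cons_head, F_add]
    have h1 : (x ::ₘ T') + (y ::ₘ R') = (y ::ₘ T') + (x ::ₘ R') := by
      rw [Multiset.cons_add, Multiset.add_cons, Multiset.cons_add, Multiset.add_cons,
        Multiset.cons_swap]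
    rw [h1, F_add]
    simp only [Multiset.card_cons, Multiset.map_cons, Multiset.sum_cons]
    push_cast
    have h2 : min (x : ℤ) (T'.card + 1) + x ≤ min (y : ℤ) (T'.card + 1) + y := by omega
    linarith
  · intro s T hT x hx hc
    obtain ⟨R, rfl⟩ := Multiset.le_iff_exists_add.1 hT
    obtain ⟨T', rfl⟩ := Multiset.exists_cons_of_mem hx
    rw [Multiset.erase_cons_head, F_add]
    have h1 : (x ::ₘ T') + R = T' + (x ::ₘ R) := by
      rw [Multiset.cons_add, Multiset.add_cons]
    rw [h1, F_add]
    have h2 := sum_mono R T'.card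
    simp only [Multiset.card_cons, Multiset.map_cons, Multiset.sum_cons] at hc ⊢
    push_cast
    have h3 : min (x : ℤ) T'.card ≤ x := min_le_left _ _
    have h4 : ((R.map (fun y => min y T'.card)).sum : ℤ) ≤
        ((R.map (fun y => min y (T'.card + 1))).sum : ℤ) := by exact_mod_cast h2
    have h5 : (x : ℤ) ≤ T'.card := by omega
    nlinarith
  · intro s T hT x hx
    obtain ⟨R, rfl⟩ := Multiset.le_iff_exists_add.1 hT
    obtain ⟨T', rfl⟩ := Multiset.exists_cons_of_mem hx
    rw [Multiset.erase_cons_head, F_add]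
    have h1 : (x ::ₘ T') + R = T' + (x ::ₘ R) := by
      rw [Multiset.cons_add, Multiset.add_cons]
    rw [h1, F_add]
    have h2 := sum_mono R T'.card
    simp only [Multiset.card_cons, Multiset.map_cons, Multiset.sum_cons]
    push_cast
    have h3 : min (x : ℤ) T'.card ≤ x := min_le_left _ _
    have h4 : ((R.map (fun y => min y T'.card)).sum : ℤ) ≤
        ((R.map (fun y => min y (T'.card + 1))).sum : ℤ) := by exact_mod_cast h2
    have h5 : (0 : ℤ) ≤ T'.card := by omega
    nlinarith
  · intro s T u hT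
    obtain ⟨R, rfl⟩ := Multiset.le_iff_exists_add.1 hT
    rw [add_assoc, F_add, F_add, Multiset.map_add, Multiset.sum_add]
    push_cast
    ring

end Pool.Agent.T2H20.FB
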