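import Pool.Agent.T2H20.FB.Stm

/-! # FB package PAR (project FB of helper20, MP_1c575b_co)

(Par N).Finite: it is the image of the finite type `Nat.Partition N` under `parts`. For the cardinality:
`Nat.card_congr` with the equivalence p ↦ p.parts.
-/

namespace Pool.Agent.T2H20.FB

open Multiset

theorem T_PAR : P_PAR := by
  refine ⟨fun N => ?_, fun N Q => ?_⟩
  · refine (Set.finite_range fun p : Nat.Partition N => p.parts).subset ?_
    rintro s ⟨h1, h2⟩
    exact ⟨⟨s, fun {i} hi => h1 i hi, h2⟩, rfl⟩
  · rw [← Nat.card_coe_set_eq]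
    refine Nat.card_congr
      { toFun := fun p => ⟨p.1.parts, ⟨fun x hx => p.1.parts_pos hx, p.1.parts_sum⟩, p.2⟩
        invFun := fun s => ⟨⟨s.1, fun {i} hi => s.2.1.1 i hi, s.2.1.2⟩, s.2.2⟩
        left_inv := fun p => rfl
        right_inv := fun s => rfl }

end Pool.Agent.T2H20.FB
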