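import Pool.Agent.T2H20.FB.Stm

/-! # FB package POS (project FB of helper20, MP_1c575b_co)

s = n ::ₘ replicate n 1 (the star) is in Par (2n); Tight: F s {n} = n - n = 0 ≤ 1. For T ≤ s: if T = replicate e 1 (e ≤ n): F = e(e-1) + (n-e) + min n e - e ≥ 0; if T = n ::ₘ replicate e 1:
i = e+1, F = (e+1)e + (n-e) - n - e = e² - e ≥ 0 (n = 1: both descriptions coincide, fine). P_TFC gives s ∈ G1 n; finite by P_PAR.
-/

namespace Pool.Agent.T2H20.FB

open Multiset

theorem T_POS (hT : P_TFC) (hP : P_PAR) : P_POS := by
  classical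
  intro n hn
  have hfin1 : (G1 n).Finite := (hP.1 (2 * n)).subset (fun s hs => hs.1)
  have hrep : ∀ e ≤ n, replicate n 1 - replicate e 1 = replicate (n - e) 1 := by
    intro e he
    obtain ⟨k, rfl⟩ := Nat.exists_eq_add_of_le he
    rw [Multiset.replicate_add, add_tsub_cancel_left, Nat.add_sub_cancel_left]
  have hcons : ∀ T : Multiset ℕ, n ::ₘ replicate n 1 - n ::ₘ T = replicate n 1 - T := by
    intro T
    rw [Multiset.sub_cons, Multiset.erase_cons_head]
  have hpar : n ::ₘ replicate n 1 ∈ Par (2 * n) := by
    refine ⟨fun x hx => ?_, ?_⟩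
    · rw [Multiset.mem_cons] at hx
      rcases hx with rfl | hx
      · omega
      · rw [Multiset.eq_of_mem_replicate hx]
        exact one_pos
    · rw [Multiset.sum_cons, Multiset.sum_replicate, smul_eq_mul]
      omega
  have hA : ∀ e ≤ n, F (n ::ₘ replicate n 1) (n ::ₘ replicate e 1) = (e : ℤ) * e - e := by
    intro e he
    unfold F
    rw [hcons, hrep e he]
    simp only [Multiset.card_cons, Multiset.card_replicate, Multiset.map_replicate,
      Multiset.sum_replicate, Multiset.sum_cons, smul_eq_mul, mul_one]
    rw [min_eq_left (by omega : 1 ≤ e + 1), mul_one]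
    push_cast [Nat.cast_sub he]
    ring
  have htight : Tight (n ::ₘ replicate n 1) := by
    refine ⟨fun T hT' => ?_, n ::ₘ 0, ?_, Multiset.cons_ne_zero, ?_⟩
    · by_cases h1 : n ∈ T
      · obtain ⟨T', rfl⟩ := Multiset.exists_cons_of_mem h1
        obtain ⟨e, he, rfl⟩ := Multiset.le_replicate_iff.1 ((Multiset.cons_le_cons_iff _).1 hT')
        rw [hA e he]
        rcases Nat.eq_zero_or_pos e with h2 | h2
        · subst h2
          simp
        · have h3 : (1 : ℤ) ≤ e := by exact_mod_cast h2
          nlinarith
      · have h2 := (Multiset.le_cons_of_notMem h1).1 hT'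
        obtain ⟨e, he, rfl⟩ := Multiset.le_replicate_iff.1 h2
        unfold F
        rw [Multiset.cons_sub_of_le _ h2, hrep e he]
        simp only [Multiset.card_replicate, Multiset.map_cons, Multiset.map_replicate,
          Multiset.sum_replicate, Multiset.sum_cons, smul_eq_mul, mul_one]
        rcases Nat.eq_zero_or_pos e with h3 | h3
        · subst h3
          simp
        · rw [min_eq_right he, min_eq_left (by omega : 1 ≤ e), mul_one]
          push_cast [Nat.cast_sub he]
          have h4 : (1 : ℤ) ≤ e := by exact_mod_cast h3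
          have h5 : (e : ℤ) ≤ n := by exact_mod_cast he
          nlinarith
    · exact Multiset.cons_le_cons _ (Multiset.zero_le _)
    · have h := hA 0 (Nat.zero_le _)
      rw [Multiset.replicate_zero] at h
      rw [h]
      norm_num
  rw [Set.ncard_pos hfin1]
  exact ⟨_, hT n _ hpar htight⟩

end Pool.Agent.T2H20.FB
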