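import Pool.Agent.T2H20.FB.Stm

/-! # FB package PS0 -/

namespace Pool.Agent.T2H20.FB

open Multiset

lemma ps0_exists_IsMx {s : Multiset ℕ} (hs : s ≠ 0) : ∃ d, IsMx s d := by
  have hne : s.toFinset.Nonempty := by
    obtain ⟨x, hx⟩ := Multiset.exists_mem_of_ne_zero hs
    exact ⟨x, Multiset.mem_toFinset.2 hx⟩
  obtain ⟨d, hd, hmax⟩ := Finset.exists_max_image s.toFinset id hne
  exact ⟨d, Multiset.mem_toFinset.1 hd, fun y hy => hmax y (Multiset.mem_toFinset.2 hy)⟩

lemma ps0_sup_of_IsMx {s : Multiset ℕ} {d : ℕ} (h : IsMx s d) : s.sup = d :=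
  le_antisymm (Multiset.sup_le.2 h.2) (Multiset.le_sup h.1)

lemma ps0_sum_pred (L : List ℕ) (h : ∀ x ∈ L, 1 ≤ x) :
    (L.map (fun x => x - 1)).sum + L.length = L.sum := by
  induction L with
  | nil => rfl
  | cons a l ih =>
    have h1 := h a (by simp)
    have h2 := ih fun x hx => h x (by simp [hx])
    simp only [List.map_cons, List.sum_cons, List.length_cons]
    omega

lemma ps0_card_le_sum (s : Multiset ℕ) (h : ∀ x ∈ s, 0 < x) : s.card ≤ s.sum := by
  induction s using Multiset.induction with
  | empty => simp
  | cons a t ih =>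
    have h1 := h a (by simp)
    have h2 := ih fun x hx => h x (by simp [hx])
    rw [Multiset.card_cons, Multiset.sum_cons]
    omega

theorem T_PS0 (hN : P_EGN) (hS : P_STP) (hT : P_TFC) : P_PS0 := by
  intro n hn s hs h1s
  have hpos := hs.1.1
  have hsum := hs.1.2
  have hge : ∀ x ∈ s, 2 ≤ x := by
    intro x hx
    have := hpos x hx
    have h2 : x ≠ 1 := fun h => h1s (h ▸ hx)
    omega
  have hs0 : s ≠ 0 := by
    rintro rfl
    simp at hsum
    omega
  obtain ⟨d, hd⟩ := ps0_exists_IsMx hs0
  have hd2 := hge d hd.1
  set L : List ℕ := (s.erase d).sort (· ≤ ·) with hL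
  have hLs : (L : Multiset ℕ) = s.erase d := Multiset.sort_eq _ _
  have hLmem : ∀ x ∈ L, x ∈ s := by
    intro x hx
    have : x ∈ (L : Multiset ℕ) := hx
    rw [hLs] at this
    exact Multiset.mem_of_mem_erase this
  have hsorted : L.Pairwise (· ≤ ·) := Multiset.pairwise_sort _ _
  set N := L.length with hNdef
  set sT : ℕ → Multiset ℕ := fun T =>
    (d + T) ::ₘ ((((L.take T).map (fun x => x - 1) : List ℕ) : Multiset ℕ) + ((L.drop T : List ℕ) : Multiset ℕ))
    with hsT
  have hs0eq : sT 0 = s := by
    simp only [hsT, List.take_zero, List.map_nil, List.drop_zero, Multiset.coe_nil, zero_add,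
      Nat.add_zero]
    rw [hLs]
    exact Multiset.cons_erase hd.1
  set P : ℕ → Prop := fun T => ∀ T' ≤ sT T, T' ≠ 0 → 0 ≤ F (sT T) T' with hPdef
  have hP0 : P 0 := by
    intro T' hT' _
    rw [hs0eq] at hT' ⊢
    exact (hN s hs.2).2 T' hT'
  have hPN : ¬ P N := by
    intro h
    have h1 := h {d + N} (by simp [hsT]) (by simp)
    have h2 : sT N = (d + N) ::ₘ (((L.map (fun x => x - 1) : List ℕ) : Multiset ℕ)) := by
      simp only [hsT, hNdef, List.take_length, List.drop_length, Multiset.coe_nil, add_zero]
    rw [h2] at h1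
    unfold F at h1
    have h3 : ((d + N) ::ₘ (((L.map (fun x => x - 1) : List ℕ) : Multiset ℕ))) - {d + N}
        = (((L.map (fun x => x - 1) : List ℕ) : Multiset ℕ)) := by
      rw [← Multiset.singleton_add, add_tsub_cancel_left]
    rw [h3] at h1
    simp only [Multiset.card_singleton, Multiset.sum_singleton, Nat.cast_one, sub_self,
      mul_zero, zero_add] at h1
    have h4 : ((((L.map (fun x => x - 1) : List ℕ) : Multiset ℕ)).map (fun y => min y 1)).sum ≤ N := by
      have h5 := Multiset.sum_le_card_nsmul
        ((((L.map (fun x => x - 1) : List ℕ) : Multiset ℕ)).map (fun y => min y 1)) 1 (by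
          intro x hx
          obtain ⟨y, _, rfl⟩ := Multiset.mem_map.1 hx
          exact min_le_right _ _)
      simpa [hNdef] using h5
    push_cast at h1
    have h6 : (((((L.map (fun x => x - 1) : List ℕ) : Multiset ℕ)).map (fun y => min y 1)).sum : ℤ) ≤ N := by
      exact_mod_cast h4
    have h7 : (2 : ℤ) ≤ d := by exact_mod_cast hd2
    linarith
  have hex : ∃ T, T < N ∧ P T ∧ ¬ P (T + 1) := by
    by_contra hcon
    push Not at hcon
    have : ∀ T, T ≤ N → P T := by
      intro T
      induction T with
      | zero => intro _; exact hP0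
      | succ T ih => intro hT1; exact hcon T (by omega) (ih (by omega))
    exact hPN (this N le_rfl)
  obtain ⟨T, hTN, hPT, hPT1⟩ := hex
  -- decomposition
  set x := L[T] with hx
  set R : Multiset ℕ := (((L.take T).map (fun x => x - 1) : List ℕ) : Multiset ℕ)
    + ((L.drop (T + 1) : List ℕ) : Multiset ℕ) with hR
  have hdrop : L.drop T = x :: L.drop (T + 1) := List.drop_eq_getElem_cons hTN
  have htake : L.take (T + 1) = L.take T ++ [x] := by
    rw [List.take_add_one, List.getElem?_eq_getElem hTN]; rfl
  have hdec : sT T = (d + T) ::ₘ x ::ₘ R := by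
    simp only [hsT, hR]
    rw [hdrop, ← Multiset.cons_coe, Multiset.add_cons]
  have hdec1 : sT (T + 1) = (d + T + 1) ::ₘ (x - 1) ::ₘ R := by
    simp only [hsT, hR]
    rw [htake, List.map_append, ← Multiset.coe_add, List.map_singleton, Multiset.coe_singleton,
      add_assoc, Multiset.singleton_add, Multiset.add_cons, add_assoc]
  have hxL : x ∈ L := List.getElem_mem _
  have hx2 := hge x (hLmem x hxL)
  have hxd : x ≤ d := hd.2 x (hLmem x hxL)
  have hRle : ∀ y ∈ R, y ≤ d + T := by
    intro y hy
    rw [hR, Multiset.mem_add] at hy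
    rcases hy with hy | hy
    · rw [Multiset.mem_coe, List.mem_map] at hy
      obtain ⟨z, hz, rfl⟩ := hy
      have := hd.2 z (hLmem z (List.mem_of_mem_take hz))
      omega
    · rw [Multiset.mem_coe] at hy
      have := hd.2 y (hLmem y (List.mem_of_mem_drop hy))
      omega
  have htight : ∃ T' ≤ sT T, T' ≠ 0 ∧ F (sT T) T' ≤ 1 := by
    by_contra hcon
    push Not at hcon
    apply hPT1
    intro T' hT' hT'0
    rw [hdec1] at hT' ⊢
    have := hS R (d + T) x 2 (by omega) (by omega) hRle (by
      intro T'' hT'' hT''0
      rw [← hdec] at hT'' ⊢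
      have := hcon T'' hT'' hT''0
      omega) T' hT' hT'0
    linarith
  have hTight : Tight (sT T) := by
    refine ⟨fun T' hT' => ?_, htight⟩
    by_cases h0 : T' = 0
    · subst h0
      unfold F
      simp
    · exact hPT T' hT' h0
  have htl : (L.take T).length = T := by rw [List.length_take]; omega
  have hPar : sT T ∈ Par (2 * n) := by
    constructor
    · intro y hy
      simp only [hsT, Multiset.mem_cons, Multiset.mem_add, Multiset.mem_coe, List.mem_map] at hy
      rcases hy with rfl | ⟨z, hz, rfl⟩ | hy
      · omega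
      · have := hge z (hLmem z (List.mem_of_mem_take hz))
        omega
      · exact hpos y (hLmem y (List.mem_of_mem_drop hy))
    · have h1 := ps0_sum_pred (L.take T) (fun z hz => by
        have := hge z (hLmem z (List.mem_of_mem_take hz)); omega)
      rw [htl] at h1
      have h2 : (L.take T).sum + (L.drop T).sum = L.sum := by
        rw [← List.sum_append, List.take_append_drop]
      have h3 : d + L.sum = 2 * n := by
        have h4 : d ::ₘ s.erase d = s := Multiset.cons_erase hd.1
        have h5 := congrArg Multiset.sum h4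
        rw [Multiset.sum_cons, ← hLs, Multiset.sum_coe, hsum] at h5
        exact h5
      simp only [hsT, Multiset.sum_cons, Multiset.sum_add, Multiset.sum_coe]
      omega
  have hG1 : sT T ∈ G1 n := hT n _ hPar hTight
  have hMx : IsMx (sT T) (d + T) := by
    refine ⟨by simp [hsT], ?_⟩
    intro y hy
    rw [hdec, Multiset.mem_cons, Multiset.mem_cons] at hy
    rcases hy with rfl | rfl | hy
    · exact le_rfl
    · omega
    · exact hRle y hy
  have hTcard : T ≤ 2 * n := by
    have h1 := ps0_card_le_sum s hpos
    have h2 : N = (s.erase d).card := by rw [← hLs, Multiset.coe_card]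
    have h3 : (s.erase d).card ≤ s.card := Multiset.card_le_card (Multiset.erase_le _ _)
    omega
  set y := if h : 0 < T then L[T - 1] else 0 with hy
  have hyle : y ≤ 2 * n := by
    rw [hy]
    split_ifs with h
    · rw [← hsum]
      exact Multiset.le_sum_of_mem (hLmem _ (List.getElem_mem _))
    · exact Nat.zero_le _
  refine ⟨y, hyle, T, hTcard, sT T, hG1, ?_⟩
  unfold rec0
  rw [ps0_sup_of_IsMx hMx]
  have her : (sT T).erase (d + T) = (((L.take T).map (fun x => x - 1) : List ℕ) : Multiset ℕ)
      + ((L.drop T : List ℕ) : Multiset ℕ) := by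
    simp only [hsT]
    exact Multiset.erase_cons_head _ _
  rw [her, Multiset.map_add, Multiset.map_coe, Multiset.map_coe, List.map_map, Nat.add_sub_cancel]
  have hm1 : (L.take T).map ((fun x => if x < y then x + 1 else x) ∘ (fun x => x - 1)) = L.take T := by
    conv_rhs => rw [← List.map_id (L.take T)]
    apply List.map_congr_left
    intro z hz
    obtain ⟨i, hi, rfl⟩ := List.mem_iff_getElem.1 hz
    rw [htl] at hi
    have hTpos : 0 < T := by omega
    have h1 : (L.take T)[i]'(by rw [htl]; exact hi) = L[i]'(by omega) := by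
      rw [List.getElem_take]
    have hyv : y = L[T - 1]'(by omega) := by rw [hy, dif_pos hTpos]
    have h2 : L[i]'(by omega) ≤ L[T - 1]'(by omega) := by
      rcases Nat.lt_or_ge i (T - 1) with h | h
      · exact List.pairwise_iff_getElem.1 hsorted i (T - 1) (by omega) (by omega) h
      · have : i = T - 1 := by omega
        subst this
        exact le_rfl
    have h3 := hge _ (hLmem _ (List.getElem_mem (l := L) (n := i) (by omega)))
    simp only [Function.comp_apply, id, h1]
    rw [hyv, if_pos (by omega)]
    omega
  have hm2 : (L.drop T).map (fun x => if x < y then x + 1 else x) = L.drop T := by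
    conv_rhs => rw [← List.map_id (L.drop T)]
    apply List.map_congr_left
    intro z hz
    obtain ⟨i, hi, rfl⟩ := List.mem_iff_getElem.1 hz
    rw [List.length_drop] at hi
    simp only [List.getElem_drop, id]
    rw [if_neg]
    rw [hy]
    split_ifs with h
    · have := List.pairwise_iff_getElem.1 hsorted (T - 1) (T + i) (by omega) (by omega) (by omega)
      omega
    · omega
  rw [hm1, hm2, Multiset.coe_add, List.take_append_drop, hLs]
  exact Multiset.cons_erase hd.1

end Pool.Agent.T2H20.FB
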