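import Pool.Agent.T2H20.FB.Stm

/-! # FB package PSI (project FB of helper20, MP_1c575b_co)

s ≠ 0 (n ≥ 1). d := largest element, z := count 1 (s.erase d), r := d ::ₘ (s.erase d).filter (· ≠ 1), so s = sh r d z 0 and for t ≤ z put s_t := sh r d (z-t) t. s_t.sum = 2n, elements positive.
Let c := min of F r T over nonempty T ≤ r (attained); by P_SHF (d ≥ 1): min F s = c + z ≥ 0 (P_EGN), min F s_t = c + z - 2t. m := c + z.
Case m/2 ≤ z (natural halves, t := m/2): min F s_t = m - 2t ∈ {0,1}: Tight, s_t ∈ G1 n by P_TFC; rec1 t s_t = s because s_t.sup = d + t and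
(s_t.erase (d+t)) + replicate t 1 = (s.erase d). Choose s' := s_t, y := T := 0, left alternative.
Case m ≥ 2z + 2: s_z = (d+z) ::ₘ filter... has min F ≥ 2 ≥ 0, so Graphical (P_EGS), in GG n, and 1 ∉ s_z (d + z ≠ 1: if d = 1 then all elements of s are 1, s = 2n ones and z = 2n-1 ≥ 1).
P_PS0 gives y, T, s' with rec0 y T s' = s_z, and rec1 z s_z = s: right alternative with t = z ≤ 2n.
-/

namespace Pool.Agent.T2H20.FB

open Multiset

theorem psi_F_zero (s : Multiset ℕ) : F s 0 = 0 := by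
  unfold F
  simp

theorem psi_min {r : Multiset ℕ} (hr : r ≠ 0) :
    ∃ T₀ ≤ r, T₀ ≠ 0 ∧ ∀ T ≤ r, T ≠ 0 → F r T₀ ≤ F r T := by
  classical
  have hne : ((Multiset.powerset r).toFinset.filter (fun T => T ≠ 0)).Nonempty :=
    ⟨r, Finset.mem_filter.2 ⟨Multiset.mem_toFinset.2 (Multiset.mem_powerset.2 le_rfl), hr⟩⟩
  obtain ⟨T₀, h1, h2⟩ := Finset.exists_min_image _ (fun T => F r T) hne
  obtain ⟨h3, h4⟩ := Finset.mem_filter.1 h1
  refine ⟨T₀, Multiset.mem_powerset.1 (Multiset.mem_toFinset.1 h3), h4, fun T hT hT0 => ?_⟩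
  exact h2 T (Finset.mem_filter.2 ⟨Multiset.mem_toFinset.2 (Multiset.mem_powerset.2 hT), hT0⟩)

theorem psi_isMx {s : Multiset ℕ} (hs : s ≠ 0) : ∃ d, IsMx s d := by
  obtain ⟨x, hx⟩ := Multiset.exists_mem_of_ne_zero hs
  have hne : s.toFinset.Nonempty := ⟨x, Multiset.mem_toFinset.2 hx⟩
  obtain ⟨d, h1, h2⟩ := Finset.exists_max_image s.toFinset id hne
  exact ⟨d, Multiset.mem_toFinset.1 h1, fun y hy => h2 y (Multiset.mem_toFinset.2 hy)⟩

theorem psi_sup {s : Multiset ℕ} {d : ℕ} (h : IsMx s d) : s.sup = d :=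
  le_antisymm (Multiset.sup_le.2 h.2) (Multiset.le_sup h.1)

theorem T_PSI (hE : P_EGS) (hN : P_EGN) (hS : P_SHF) (hT : P_TFC) (h0 : P_PS0) : P_PSI := by
  classical
  intro n hn s hs
  obtain ⟨⟨hpos, hsum⟩, hgr⟩ := hs
  have hs0 : s ≠ 0 := by
    rintro rfl
    simp at hsum
    omega
  obtain ⟨d, hd⟩ := psi_isMx hs0
  have hd1 : 1 ≤ d := hpos d hd.1
  set q : Multiset ℕ := (s.erase d).filter (fun x => x ≠ 1) with hq
  set z : ℕ := (s.erase d).count 1 with hz
  have hse : s.erase d = q + replicate z 1 := by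
    have h1 := Multiset.filter_add_not (fun x => x ≠ 1) (s.erase d)
    have h2 : (s.erase d).filter (fun x => ¬ x ≠ 1) = replicate z 1 := by
      rw [hz, ← Multiset.filter_eq']
      refine Multiset.filter_congr fun x _ => ?_
      simp
    rw [h2] at h1
    exact h1.symm
  have hcons : s = d ::ₘ (q + replicate z 1) := by
    rw [← hse, Multiset.cons_erase hd.1]
  have hqle : ∀ x ∈ q, x ≤ d ∧ 0 < x ∧ x ≠ 1 := by
    intro x hx
    rw [hq, Multiset.mem_filter] at hx
    have := Multiset.mem_of_mem_erase hx.1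
    exact ⟨hd.2 x this, hpos x this, hx.2⟩
  set r : Multiset ℕ := d ::ₘ q with hr
  have hrmx : IsMx r d := by
    refine ⟨Multiset.mem_cons_self _ _, fun y hy => ?_⟩
    rcases Multiset.mem_cons.1 hy with h | h
    · exact h.le
    · exact (hqle y h).1
  have hsh : ∀ a b : ℕ, sh r d a b = (d + b) ::ₘ (q + replicate a 1) := by
    intro a b
    unfold sh
    rw [hr, Multiset.erase_cons_head]
  obtain ⟨T₀, hT₀, hT₀0, hmin⟩ := psi_min (r := r) (by rw [hr]; exact Multiset.cons_ne_zero)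
  set c : ℤ := F r T₀ with hc
  have hS1 : ∀ a b : ℕ, ∀ T ≤ sh r d a b, T ≠ 0 → c + a - b ≤ F (sh r d a b) T := fun a b =>
    (hS r d a b c hrmx hd1).1 hmin
  have hS2 : ∀ a b : ℕ, ∃ T ≤ sh r d a b, T ≠ 0 ∧ F (sh r d a b) T ≤ c + a - b := fun a b =>
    (hS r d a b c hrmx hd1).2 ⟨T₀, hT₀, hT₀0, le_rfl⟩
  have hs_eq : sh r d z 0 = s := by
    rw [hsh, add_zero, ← hcons]
  have hm0 : 0 ≤ c + z := by
    obtain ⟨T, h1, h2, h3⟩ := hS2 z 0
    rw [hs_eq] at h1 h3
    have h4 := (hN s hgr).2 T h1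
    push_cast at h3
    linarith
  -- the sums
  have hsumq : d + (q.sum + z) = 2 * n := by
    have h1 := hsum
    rw [hcons] at h1
    simpa using h1
  have hz2n : z ≤ 2 * n := by omega
  have hPar : ∀ t ≤ z, sh r d (z - t) t ∈ Par (2 * n) := by
    intro t ht
    rw [hsh]
    constructor
    · intro x hx
      rcases Multiset.mem_cons.1 hx with h | h
      · omega
      · rcases Multiset.mem_add.1 h with h | h
        · exact (hqle x h).2.1
        · rw [Multiset.eq_of_mem_replicate h]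
          exact one_pos
    · rw [Multiset.sum_cons, Multiset.sum_add, Multiset.sum_replicate, smul_eq_mul, mul_one]
      omega
  have hmx : ∀ t ≤ z, IsMx (sh r d (z - t) t) (d + t) := by
    intro t ht
    rw [hsh]
    refine ⟨Multiset.mem_cons_self _ _, fun y hy => ?_⟩
    rcases Multiset.mem_cons.1 hy with h | h
    · exact h.le
    · rcases Multiset.mem_add.1 h with h | h
      · exact ((hqle y h).1).trans (Nat.le_add_right _ _)
      · rw [Multiset.eq_of_mem_replicate h]
        omega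
  have hrec : ∀ t ≤ z, rec1 t (sh r d (z - t) t) = s := by
    intro t ht
    unfold rec1
    rw [psi_sup (hmx t ht), hsh, Multiset.erase_cons_head, Nat.add_sub_cancel, add_assoc,
      ← Multiset.replicate_add, Nat.sub_add_cancel ht, ← hcons]
  by_cases hcase : c + z ≤ 2 * z + 1
  · -- the natural half
    obtain ⟨t, ht⟩ : ∃ t : ℕ, (t : ℤ) = (c + z) / 2 :=
      ⟨((c + z) / 2).toNat, Int.toNat_of_nonneg (by omega)⟩
    have htz : t ≤ z := by omega
    have h1 : 0 ≤ c + (z - t : ℕ) - t ∧ c + (z - t : ℕ) - t ≤ 1 := by omega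
    have hTight : Tight (sh r d (z - t) t) := by
      refine ⟨fun T hT => ?_, ?_⟩
      · by_cases hT0 : T = 0
        · rw [hT0, psi_F_zero]
        · exact h1.1.trans (hS1 _ _ T hT hT0)
      · obtain ⟨T, h2, h3, h4⟩ := hS2 (z - t) t
        exact ⟨T, h2, h3, h4.trans h1.2⟩
    exact ⟨t, htz.trans hz2n, 0, Nat.zero_le _, 0, Nat.zero_le _, sh r d (z - t) t,
      hT n _ (hPar t htz) hTight, Or.inl (hrec t htz)⟩
  · have hP := hPar z le_rfl
    have hge : ∀ T ≤ sh r d (z - z) z, 0 ≤ F (sh r d (z - z) z) T := by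
      intro T hT
      by_cases hT0 : T = 0
      · rw [hT0, psi_F_zero]
      · have := hS1 _ _ T hT hT0
        have h2 : ((z - z : ℕ) : ℤ) = 0 := by simp
        rw [h2] at this
        omega
    have hG : Graphical (sh r d (z - z) z) := hE _ (by rw [hP.2]; exact even_two_mul n) hge
    have h1 : 1 ∉ sh r d (z - z) z := by
      rw [hsh, Nat.sub_self, Multiset.replicate_zero, add_zero]
      intro h
      rcases Multiset.mem_cons.1 h with h | h
      · have hd' : d = 1 := by omega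
        have hz' : z = 0 := by omega
        have hq0 : q = 0 := by
          by_contra hq0
          obtain ⟨x, hx⟩ := Multiset.exists_mem_of_ne_zero hq0
          have := hqle x hx
          omega
        rw [hq0, hz', hd'] at hsumq
        simp at hsumq
        omega
      · exact (hqle 1 h).2.2 rfl
    obtain ⟨y, hy, T, hTn, s', hs', hrec'⟩ := h0 n hn _ ⟨hP, hG⟩ h1
    refine ⟨z, hz2n, y, hy, T, hTn, s', hs', Or.inr ?_⟩
    rw [hrec']
    exact hrec z le_rfl

end Pool.Agent.T2H20.FB
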