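import Pool.Agent.T2H20.FB.Stm

/-! # FB package SHF (project FB of helper20, MP_1c575b_co; proof by helper18) -/

namespace Pool.Agent.T2H20.FB

open Multiset

namespace PkgSHF

/-- one may assume that the largest element is in the set -/
lemma swap (hO : P_OPS) {s T : Multiset ℕ} {D : ℕ} (hD : IsMx s D) (hT : T ≤ s) (hT0 : T ≠ 0) :
    ∃ T' ≤ s, D ∈ T' ∧ F s T' ≤ F s T := by
  classical
  by_cases h : D ∈ T
  · exact ⟨T, hT, h, le_rfl⟩
  obtain ⟨x, hx⟩ := Multiset.exists_mem_of_ne_zero hT0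
  have hxs : x ∈ s := Multiset.mem_of_le hT hx
  have hDc : T.count D = 0 := Multiset.count_eq_zero.2 h
  have hDs : 1 ≤ s.count D := Multiset.one_le_count_iff_mem.2 hD.1
  refine ⟨D ::ₘ T.erase x, ?_, Multiset.mem_cons_self _ _, ?_⟩
  · rw [Multiset.le_iff_count]
    intro y
    have h1 := Multiset.le_iff_count.1 hT y
    have h2 := Multiset.le_iff_count.1 (Multiset.erase_le x T) y
    rw [Multiset.count_cons]
    by_cases hy : y = D
    · rw [if_pos hy]
      rw [hy] at h1 h2 ⊢
      omega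
    · rw [if_neg hy]
      omega
  · refine hO.1 s T hT x hx D ?_ (hD.2 x hxs)
    rw [← Multiset.one_le_count_iff_mem, Multiset.count_sub]
    omega

lemma key {r R : Multiset ℕ} {d : ℕ} (a b : ℕ) (hR : R ≤ r.erase d) :
    F (sh r d a b) ((d + b) ::ₘ R) = F r (d ::ₘ R) + a - b := by
  classical
  unfold F sh
  rw [Multiset.sub_cons, Multiset.erase_cons_head, Multiset.sub_cons,
    ← tsub_add_eq_add_tsub hR, Multiset.map_add, Multiset.sum_add, Multiset.map_replicate,
    Multiset.sum_replicate, Multiset.card_cons, Multiset.card_cons, Multiset.sum_cons,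
    Multiset.sum_cons]
  have : min 1 (card R + 1) = 1 := by omega
  rw [this]
  push_cast
  ring

lemma ones (hO : P_OPS) {s R : Multiset ℕ} {D : ℕ} (e : ℕ) (h : D ::ₘ (R + replicate e 1) ≤ s) :
    F s (D ::ₘ R) ≤ F s (D ::ₘ (R + replicate e 1)) := by
  classical
  induction e with
  | zero => simp
  | succ e ih =>
    have h1 : D ::ₘ (R + replicate (e + 1) 1) = 1 ::ₘ (D ::ₘ (R + replicate e 1)) := by
      rw [Multiset.replicate_succ, Multiset.cons_swap, Multiset.add_cons]
    rw [h1] at h ⊢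
    have h2 : D ::ₘ (R + replicate e 1) ≤ s := (Multiset.le_cons_self _ _).trans h
    refine (ih h2).trans ?_
    have h3 := hO.2.1 s _ h 1 (Multiset.mem_cons_self _ _) (by
      rw [Multiset.card_cons, Multiset.card_cons]
      omega)
    rwa [Multiset.erase_cons_head] at h3

lemma mx {r : Multiset ℕ} {d : ℕ} (a b : ℕ) (h : IsMx r d) (h1 : 1 ≤ d) :
    IsMx (sh r d a b) (d + b) := by
  classical
  refine ⟨Multiset.mem_cons_self _ _, fun y hy => ?_⟩
  unfold sh at hy
  rw [Multiset.mem_cons, Multiset.mem_add] at hy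
  rcases hy with hy | hy | hy
  · exact hy.le
  · exact (h.2 y (Multiset.mem_of_mem_erase hy)).trans (Nat.le_add_right _ _)
  · rw [Multiset.eq_of_mem_replicate hy]
    omega

end PkgSHF

open PkgSHF in
theorem T_SHF (hO : P_OPS) : P_SHF := by
  classical
  intro r d a b c hmx h1
  constructor
  · intro H T hT hT0
    obtain ⟨T', hT', hD, hF⟩ := swap hO (mx a b hmx h1) hT hT0
    refine le_trans ?_ hF
    obtain ⟨T0, hT0'⟩ : ∃ T0, T' = (d + b) ::ₘ T0 := ⟨T'.erase (d + b), (Multiset.cons_erase hD).symm⟩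
    subst hT0'
    have h2 : T0 ≤ r.erase d + replicate a 1 := by
      unfold sh at hT'
      exact (Multiset.cons_le_cons_iff _).1 hT'
    have h3 : T0 - r.erase d ≤ replicate a 1 := tsub_le_iff_left.2 h2
    obtain ⟨e, he⟩ : ∃ e, T0 - r.erase d = replicate e 1 := by
      refine ⟨card (T0 - r.erase d), Multiset.eq_replicate.2 ⟨rfl, fun y hy => ?_⟩⟩
      exact Multiset.eq_of_mem_replicate (Multiset.mem_of_le h3 hy)
    have h4 : T0 = (T0 ∩ r.erase d) + replicate e 1 := by
      rw [← he]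
      ext y
      rw [Multiset.count_add, Multiset.count_inter, Multiset.count_sub]
      omega
    have hR : T0 ∩ r.erase d ≤ r.erase d := Multiset.inter_le_right
    rw [h4] at hT' ⊢
    refine le_trans ?_ (ones hO e hT')
    rw [key a b hR]
    have h5 := H (d ::ₘ (T0 ∩ r.erase d)) (by
      conv_rhs => rw [← Multiset.cons_erase hmx.1]
      exact (Multiset.cons_le_cons_iff _).2 hR) (Multiset.cons_ne_zero)
    linarith
  · rintro ⟨T, hT, hT0, hTc⟩
    obtain ⟨T', hT', hD, hF⟩ := swap hO hmx hT hT0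
    obtain ⟨R, hR⟩ : ∃ R, T' = d ::ₘ R := ⟨T'.erase d, (Multiset.cons_erase hD).symm⟩
    subst hR
    have h2 : R ≤ r.erase d := by
      rw [← Multiset.cons_erase hmx.1] at hT'
      exact (Multiset.cons_le_cons_iff _).1 hT'
    refine ⟨(d + b) ::ₘ R, ?_, Multiset.cons_ne_zero, ?_⟩
    · unfold sh
      exact (Multiset.cons_le_cons_iff _).2 (h2.trans (Multiset.le_add_right _ _))
    · rw [key a b h2]
      linarith

end Pool.Agent.T2H20.FB
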