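import Pool.Agent.T2H20.FB.Stm

/-! # FB package SPL (project FB of helper20, MP_1c575b_co)

base := s - replicate c v, small := replicate a 1 + mid K A, s2 := base + small. d ∈ base (d ∈ s and replicate c v ≤ s.erase d), d is ≥ all elements of s2 (v ≤ d if c > 0; c v ≥ 8K² > 0; small elements are ≤ K ≤ v ≤ d). s2.sum = s.sum is even.
Show 0 ≤ F s2 T for T ≤ s2, then P_EGS. T = 0 clear. Else swap (P_OPS 1) so that d ∈ T; write T = T1 + T2 with T1 := T ∩ base ≤ base, d ∈ T1, T2 := T - T1 ≤ small.
For T1 ≤ base with card i ≥ 1: P_OPS 4 for s = base + replicate c v and for s2 = base + small: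
F s2 T1 = F s T1 - c min v i + a min 1 i + ∑_{j=2..K} A_j min j i, F s T1 ≥ 0 (P_EGN).
If i ≤ K: 4(a - c i) ≥ 2 c v - c v = c v ≥ 8K² (4K ≤ v, c v ≤ 2a), so F s2 T1 ≥ 2K².
If i > K: a + ∑ j A_j - c min v i ≥ c v - c v = 0, so F s2 T1 ≥ 0.
Induction on card T2 (claim: F s2 (T1 + T2) ≥ 0 for T1 ≤ base nonempty, T2 ≤ small): T2 = 0 done. If card (T1+T2) ≥ K+1 remove x ∈ T2 (x ≤ K ≤ card - 1, P_OPS 2). If card (T1+T2) ≤ K: card T1 ≤ K,
card T2 ≤ K; by P_OPS 3 iterated F s2 (T1+T2) ≥ F s2 T1 - 2 T2.sum ≥ 2K² - 2K·K = 0.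
-/

namespace Pool.Agent.T2H20.FB

open Multiset

namespace SPL

lemma mid_map_sum (K : ℕ) (A : ℕ → ℕ) (f : ℕ → ℕ) :
    ((mid K A).map f).sum = ∑ j ∈ Finset.Icc 2 K, A j * f j := by
  have h : ∀ u : Multiset ℕ, (u.map f).sum = (sumAddMonoidHom.comp (mapAddMonoidHom f)) u :=
    fun u => rfl
  rw [h, mid, map_sum]
  refine Finset.sum_congr rfl fun j _ => ?_
  simp [sumAddMonoidHom, mapAddMonoidHom]

lemma small_map_sum (K a : ℕ) (A : ℕ → ℕ) (f : ℕ → ℕ) :
    ((replicate a 1 + mid K A).map f).sum = a * f 1 + ∑ j ∈ Finset.Icc 2 K, A j * f j := by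
  rw [Multiset.map_add, Multiset.sum_add, mid_map_sum]
  simp

lemma small_sum (K a : ℕ) (A : ℕ → ℕ) :
    (replicate a 1 + mid K A).sum = a + ∑ j ∈ Finset.Icc 2 K, j * A j := by
  have := small_map_sum K a A (fun x => x)
  rw [Multiset.map_id'] at this
  rw [this, mul_one]
  congr 1
  exact Finset.sum_congr rfl fun j _ => mul_comm _ _

lemma mem_small {K a x : ℕ} {A : ℕ → ℕ} (hK : 2 ≤ K) (hx : x ∈ replicate a 1 + mid K A) : x ≤ K := by
  rw [Multiset.mem_add] at hx
  rcases hx with hx | hx
  · rw [Multiset.eq_of_mem_replicate hx]; omega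
  · rw [mid, Multiset.mem_sum] at hx
    obtain ⟨j, hj, hx⟩ := hx
    rw [Multiset.eq_of_mem_replicate hx]
    exact (Finset.mem_Icc.mp hj).2

lemma F_zero (s : Multiset ℕ) : F s 0 = 0 := by
  simp [F]

/-- iterated removal -/
lemma iter (hO : P_OPS) (s T1 : Multiset ℕ) :
    ∀ (n : ℕ) (T2 : Multiset ℕ), T2.card = n → T1 + T2 ≤ s → F s T1 ≤ F s (T1 + T2) + 2 * (T2.sum : ℤ) := by
  intro n
  induction n with
  | zero =>
    intro T2 h _
    rw [Multiset.card_eq_zero] at h
    subst h
    simp
  | succ n ih =>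
    intro T2 h hle
    obtain ⟨x, hx⟩ := Multiset.exists_mem_of_ne_zero (s := T2) (by
      intro h0; rw [h0] at h; simp at h)
    have h1 := hO.2.2.1 s (T1 + T2) hle x (Multiset.mem_add.mpr (Or.inr hx))
    rw [Multiset.erase_add_right_pos _ hx] at h1
    have h2 := ih (T2.erase x) (by rw [Multiset.card_erase_of_mem hx, h]; rfl)
      (le_trans (by gcongr; exact Multiset.erase_le _ _) hle)
    have h3 : x + (T2.erase x).sum = T2.sum := by
      conv_rhs => rw [← Multiset.cons_erase hx]
      rw [Multiset.sum_cons]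
    have h4 : (T2.sum : ℤ) = x + ((T2.erase x).sum : ℤ) := by rw [← h3]; push_cast; ring
    rw [h4]
    linarith

end SPL

open SPL in
theorem T_SPL (hE : P_EGS) (hN : P_EGN) (hO : P_OPS) : P_SPL := by
  intro K hK s d hs hd v c a A hv hle hcv hsum h2a
  obtain ⟨heven, hF⟩ := hN s hs
  set base := s - replicate c v with hbase
  set small := replicate a 1 + mid K A with hsmall
  have hrs : replicate c v ≤ s := hle.trans (Multiset.erase_le _ _)
  have hsb : s = base + replicate c v := by
    rw [hbase]; exact (tsub_add_cancel_of_le hrs).symm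
  have hdb : d ∈ base := by
    rw [hbase, Multiset.mem_sub]
    have h1 := Multiset.le_iff_count.mp hle d
    rw [Multiset.count_erase_self] at h1
    have h2 : 0 < Multiset.count d s := Multiset.count_pos.mpr hd.1
    omega
  have hK2 : 0 < K ^ 2 := by positivity
  have hcpos : 0 < c := by
    rcases Nat.eq_zero_or_pos c with h | h
    · rw [h, zero_mul] at hcv; omega
    · exact h
  have hvd : v ≤ d := hd.2 v (Multiset.mem_of_le hrs (by
    rw [Multiset.mem_replicate]; exact ⟨hcpos.ne', rfl⟩))
  have hKd : K ≤ d := by omega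
  have hsm : small.sum = c * v := by rw [hsmall, small_sum, hsum]
  have hsmm : ∀ x ∈ small, x ≤ K := fun x hx => mem_small hK hx
  have hbm : ∀ x ∈ base, x ≤ d := fun x hx => hd.2 x (Multiset.mem_of_le (by
    rw [hbase]; exact tsub_le_self) hx)
  have hs2sum : (base + small).sum = s.sum := by
    conv_rhs => rw [hsb]
    rw [Multiset.sum_add base small, Multiset.sum_add base (replicate c v), hsm]; simp
  -- values on submultisets of the base
  have key : ∀ T1 ≤ base, T1 ≠ 0 → 0 ≤ F (base + small) T1 ∧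
      (T1.card ≤ K → 2 * (K : ℤ) ^ 2 ≤ F (base + small) T1) := by
    intro T1 hT1 hT10
    have hi : 1 ≤ T1.card := Nat.pos_of_ne_zero (by
      intro h; exact hT10 (Multiset.card_eq_zero.mp h))
    set i := T1.card with hi'
    have e1 := hO.2.2.2 base T1 (replicate c v) hT1
    have e2 := hO.2.2.2 base T1 small hT1
    rw [← hsb] at e1
    have e3 : ((replicate c v).map (fun y => min y T1.card)).sum = c * min v i := by
      simp [hi']
    have e4 : (small.map (fun y => min y T1.card)).sum
        = a * min 1 i + ∑ j ∈ Finset.Icc 2 K, A j * min j i := by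
      rw [hsmall]; exact small_map_sum K a A (fun y => min y T1.card)
    rw [e3] at e1
    rw [e4] at e2
    have e0 := hF T1 (hT1.trans (by rw [hbase]; exact tsub_le_self))
    have m1 : min 1 i = 1 := by omega
    rw [m1, mul_one] at e2
    have main : F (base + small) T1
        = F s T1 + ((a + ∑ j ∈ Finset.Icc 2 K, A j * min j i : ℕ) : ℤ) - ((c * min v i : ℕ) : ℤ) := by
      rw [e1, e2]; ring
    have hsm' : i ≤ K → (c * i : ℕ) * 4 ≤ c * v := by
      intro hiK
      calc c * i * 4 = c * (4 * i) := by ring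
        _ ≤ c * v := by gcongr; omega
    have hle1 : i ≤ K → 2 * (K : ℤ) ^ 2 ≤ F (base + small) T1 := by
      intro hiK
      have h1 := hsm' hiK
      have mv : min v i = i := by omega
      rw [main, mv]
      have h2 : 2 * K ^ 2 + c * i ≤ a + ∑ j ∈ Finset.Icc 2 K, A j * min j i := by
        have : 0 ≤ ∑ j ∈ Finset.Icc 2 K, A j * min j i := Nat.zero_le _
        omega
      have h3 : ((2 * K ^ 2 + c * i : ℕ) : ℤ) ≤ ((a + ∑ j ∈ Finset.Icc 2 K, A j * min j i : ℕ) : ℤ) := by
        exact_mod_cast h2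
      have h4 : ((2 * K ^ 2 + c * i : ℕ) : ℤ) = 2 * (K : ℤ) ^ 2 + ((c * i : ℕ) : ℤ) := by push_cast; ring
      rw [h4] at h3
      linarith
    refine ⟨?_, hle1⟩
    by_cases hiK : i ≤ K
    · have := hle1 hiK
      have h5 : (0 : ℤ) ≤ 2 * (K : ℤ) ^ 2 := by positivity
      linarith
    · rw [main]
      have h1 : ∑ j ∈ Finset.Icc 2 K, A j * min j i = ∑ j ∈ Finset.Icc 2 K, j * A j := by
        refine Finset.sum_congr rfl fun j hj => ?_
        have := (Finset.mem_Icc.mp hj).2
        rw [show min j i = j by omega, mul_comm]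
      rw [h1, hsum]
      have h2 : c * min v i ≤ c * v := by gcongr; exact min_le_left _ _
      have h3 : ((c * min v i : ℕ) : ℤ) ≤ ((c * v : ℕ) : ℤ) := by exact_mod_cast h2
      linarith
  -- the induction
  have ind : ∀ (n : ℕ) (T1 T2 : Multiset ℕ), T2.card = n → T1 ≤ base → T1 ≠ 0 → T2 ≤ small →
      0 ≤ F (base + small) (T1 + T2) := by
    intro n
    induction n with
    | zero =>
      intro T1 T2 h h1 h2 _
      rw [Multiset.card_eq_zero] at h
      subst h
      rw [add_zero]
      exact (key T1 h1 h2).1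
    | succ n ih =>
      intro T1 T2 h h1 h2 h3
      have hle12 : T1 + T2 ≤ base + small := add_le_add h1 h3
      by_cases hc : K + 1 ≤ (T1 + T2).card
      · obtain ⟨x, hx⟩ := Multiset.exists_mem_of_ne_zero (s := T2) (by
          intro h0; rw [h0] at h; simp at h)
        have hxK := hsmm x (Multiset.mem_of_le h3 hx)
        have g1 := hO.2.1 (base + small) (T1 + T2) hle12 x (Multiset.mem_add.mpr (Or.inr hx)) (by omega)
        rw [Multiset.erase_add_right_pos _ hx] at g1
        have g2 := ih T1 (T2.erase x) (by rw [Multiset.card_erase_of_mem hx, h]; rfl) h1 h2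
          ((Multiset.erase_le _ _).trans h3)
        linarith
      · have hc' : T1.card + T2.card ≤ K := by
          rw [Multiset.card_add] at hc; omega
        have g1 := iter hO (base + small) T1 T2.card T2 rfl hle12
        have g2 := (key T1 h1 h2).2 (by omega)
        have g3 : T2.sum ≤ T2.card * K := by
          have := Multiset.sum_le_card_nsmul T2 K (fun x hx => hsmm x (Multiset.mem_of_le h3 hx))
          simpa using this
        have g4 : T2.card * K ≤ K * K := by gcongr; omega
        have g5 : ((T2.sum : ℕ) : ℤ) ≤ (K : ℤ) * K := by exact_mod_cast g3.trans g4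
        nlinarith
  -- conclusion
  refine hE _ (by rw [hs2sum]; exact heven) ?_
  intro T hT
  rcases eq_or_ne T 0 with hT0 | hT0
  · rw [hT0, F_zero]
  -- the case `d ∈ T`
  have withd : ∀ T ≤ base + small, d ∈ T → 0 ≤ F (base + small) T := by
    intro T hT hdT
    have hdec : T = (T ∩ base) + (T - base) := by
      ext x
      rw [Multiset.count_add, Multiset.count_inter, Multiset.count_sub x T base]
      omega
    rw [hdec]
    refine ind _ (T ∩ base) (T - base) rfl (Multiset.inter_le_right) ?_ ?_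
    · intro h0
      have : d ∈ T ∩ base := Multiset.mem_inter.mpr ⟨hdT, hdb⟩
      rw [h0] at this
      exact absurd this (Multiset.notMem_zero d)
    · exact tsub_le_iff_left.mpr hT
  by_cases hdT : d ∈ T
  · exact withd T hT hdT
  · obtain ⟨x, hx⟩ := Multiset.exists_mem_of_ne_zero hT0
    have hds : d ∈ base + small := Multiset.mem_add.mpr (Or.inl hdb)
    have hxd : x ≤ d := by
      rcases Multiset.mem_add.mp (Multiset.mem_of_le hT hx) with h | h
      · exact hbm x h
      · exact (hsmm x h).trans hKd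
    have g1 := hO.1 (base + small) T hT x hx d (by
      rw [Multiset.mem_sub, Multiset.count_eq_zero_of_notMem hdT]
      exact Multiset.count_pos.mpr hds) hxd
    have g2 := withd (d ::ₘ T.erase x) (by
      rw [Multiset.cons_le_of_notMem (fun h => hdT (Multiset.mem_of_mem_erase h))]
      exact ⟨hds, (Multiset.erase_le _ _).trans hT⟩) (Multiset.mem_cons_self _ _)
    linarith

end Pool.Agent.T2H20.FB
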