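import Pool.Agent.T2H20.FB.Stm

/-! # FB package STP (project FB of helper20, MP_1c575b_co)

s = D ::ₘ x ::ₘ R, s2 = (D+1) ::ₘ (x-1) ::ₘ R, T ≤ s2, T ≠ 0. Swap (P_OPS 1) so that D+1 ∈ T: T = (D+1) ::ₘ R', R' ≤ (x-1) ::ₘ R.
If x-1 ∈ R': R' = (x-1) ::ₘ R1 with R1 ≤ R; F s2 T = F s (D ::ₘ x ::ₘ R1) (same complement R - R1, same card, same sum), ≥ c.
If x-1 ∉ R': R' ≤ R; T' = D ::ₘ R' ≤ s, s - T' = x ::ₘ (R - R'), s2 - T = (x-1) ::ₘ (R - R'), F s2 T = F s T' - (min x i - min (x-1) i) - 1 ≥ c - 2.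
-/

namespace Pool.Agent.T2H20.FB

open Multiset

namespace Stp

theorem cons_sub_cons (a : ℕ) (s t : Multiset ℕ) : a ::ₘ s - a ::ₘ t = s - t := by
  rw [Multiset.sub_cons, Multiset.erase_cons_head]

theorem main {R R' : Multiset ℕ} {D x : ℕ} {c : ℤ} (hx : 1 ≤ x)
    (hc : ∀ T ≤ D ::ₘ x ::ₘ R, T ≠ 0 → c ≤ F (D ::ₘ x ::ₘ R) T)
    (hR' : R' ≤ (x - 1) ::ₘ R) :
    c - 2 ≤ F ((D + 1) ::ₘ (x - 1) ::ₘ R) ((D + 1) ::ₘ R') := by
  by_cases h1 : x - 1 ∈ R'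
  · obtain ⟨R1, rfl⟩ := Multiset.exists_cons_of_mem h1
    have h2 : R1 ≤ R := (Multiset.cons_le_cons_iff _).1 hR'
    have h3 := hc (D ::ₘ x ::ₘ R1) (Multiset.cons_le_cons _ (Multiset.cons_le_cons _ h2))
      (Multiset.cons_ne_zero)
    unfold F at h3 ⊢
    rw [cons_sub_cons, cons_sub_cons] at h3 ⊢
    simp only [Multiset.card_cons, Multiset.sum_cons] at h3 ⊢
    push_cast [Nat.cast_sub hx] at h3 ⊢
    linarith
  · have h2 : R' ≤ R := (Multiset.le_cons_of_notMem h1).1 hR'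
    have h3 := hc (D ::ₘ R') (Multiset.cons_le_cons _ (h2.trans (Multiset.le_cons_self _ _)))
      (Multiset.cons_ne_zero)
    unfold F at h3 ⊢
    rw [cons_sub_cons, Multiset.cons_sub_of_le _ h2] at h3 ⊢
    simp only [Multiset.card_cons, Multiset.sum_cons, Multiset.map_cons] at h3 ⊢
    have h4 : min x (R'.card + 1) ≤ min (x - 1) (R'.card + 1) + 1 := by omega
    have h5 : ((min x (R'.card + 1) : ℕ) : ℤ) ≤ ((min (x - 1) (R'.card + 1) : ℕ) : ℤ) + 1 := by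
      exact_mod_cast h4
    rw [Nat.cast_add] at h3 ⊢
    rw [Nat.cast_add (D + 1), Nat.cast_add D 1]
    rw [Nat.cast_add D] at h3
    push_cast at h3 h5 ⊢
    linarith

end Stp

theorem T_STP (hO : P_OPS) : P_STP := by
  intro R D x c hx hxD hR hc T hT hT0
  by_cases h1 : D + 1 ∈ T
  · obtain ⟨R', rfl⟩ := Multiset.exists_cons_of_mem h1
    exact Stp.main hx hc ((Multiset.cons_le_cons_iff _).1 hT)
  · obtain ⟨y, hy⟩ := Multiset.exists_mem_of_ne_zero hT0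
    have hys := Multiset.mem_of_le hT hy
    have hyD : y ≤ D + 1 := by
      rw [Multiset.mem_cons, Multiset.mem_cons] at hys
      rcases hys with h | h | h
      · omega
      · omega
      · have := hR y h
        omega
    have hT' : T ≤ (x - 1) ::ₘ R := (Multiset.le_cons_of_notMem h1).1 hT
    have hmem : D + 1 ∈ (D + 1) ::ₘ (x - 1) ::ₘ R - T := by
      rw [Multiset.cons_sub_of_le _ hT']
      exact Multiset.mem_cons_self _ _
    have h2 := hO.1 ((D + 1) ::ₘ (x - 1) ::ₘ R) T hT y hy (D + 1) hmem hyD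
    exact (Stp.main hx hc ((Multiset.erase_le _ _).trans hT')).trans h2

end Pool.Agent.T2H20.FB
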