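import Pool.Agent.T2H20.FB.Stm

/-! # FB package SUB (project FB of helper20, MP_1c575b_co)

Part 1: T ≤ univ.val.map f, by induction on the multiset.
Part 2: U.val ≤ univ.val, `Multiset.map_le_map`; univ.val = U.val + Uᶜ.val, so (map f univ) - (map f U) = map f Uᶜ.val.
-/

namespace Pool.Agent.T2H20.FB

open Multiset

theorem sub_exists {α : Type} (f : α → ℕ) (s : Multiset α) :
    ∀ T : Multiset ℕ, T ≤ s.map f → ∃ u ≤ s, u.map f = T := by
  classical
  induction s using Multiset.induction_on with
  | empty =>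
    intro T hT
    rw [Multiset.map_zero, Multiset.le_zero] at hT
    exact ⟨0, le_rfl, by rw [hT, Multiset.map_zero]⟩
  | cons a s ih =>
    intro T hT
    rw [Multiset.map_cons] at hT
    by_cases h : f a ∈ T
    · obtain ⟨T', rfl⟩ := Multiset.exists_cons_of_mem h
      obtain ⟨u, h1, h2⟩ := ih T' ((Multiset.cons_le_cons_iff _).1 hT)
      exact ⟨a ::ₘ u, Multiset.cons_le_cons a h1, by rw [Multiset.map_cons, h2]⟩
    · obtain ⟨u, h1, h2⟩ := ih T ((Multiset.le_cons_of_notMem h).1 hT)
      exact ⟨u, h1.trans (Multiset.le_cons_self s a), h2⟩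

theorem T_SUB : P_SUB := by
  classical
  refine ⟨fun m f T hT => ?_, fun m f U => ?_⟩
  · obtain ⟨u, h1, h2⟩ := sub_exists f _ T hT
    exact ⟨⟨u, Multiset.nodup_of_le h1 Finset.univ.nodup⟩, h2⟩
  · have hval : (Finset.univ : Finset (Fin m)).val = U.val + Uᶜ.val := by
      have h1 : U.disjUnion Uᶜ disjoint_compl_right = Finset.univ := by
        rw [Finset.disjUnion_eq_union, Finset.union_compl]
      rw [← h1]
      rfl
    have hle : U.val.map f ≤ (Finset.univ : Finset (Fin m)).val.map f := by
      rw [hval, Multiset.map_add]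
      exact Multiset.le_add_right _ _
    refine ⟨hle, ?_⟩
    unfold F
    rw [hval, Multiset.map_add, add_tsub_cancel_left, Multiset.map_map, Multiset.card_map]
    have h1 : ((Multiset.map ((fun y => min y (Multiset.card U.val)) ∘ f) Uᶜ.val).sum : ℤ) =
        ∑ i ∈ Uᶜ, ((min (f i) U.card : ℕ) : ℤ) := by
      rw [Finset.sum_eq_multiset_sum, Nat.cast_multiset_sum, Multiset.map_map]
      rfl
    have h2 : ((Multiset.map f U.val).sum : ℤ) = ∑ i ∈ U, (f i : ℤ) := by
      rw [Finset.sum_eq_multiset_sum, Nat.cast_multiset_sum, Multiset.map_map]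
      rfl
    rw [h1, h2]
    rfl

end Pool.Agent.T2H20.FB
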