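import Pool.Agent.T2H20.FB.Stm

/-! # FB package TFC -/

namespace Pool.Agent.T2H20.FB

open Multiset

theorem T_TFC (hE : P_EGS) (hC : P_CON) : P_TFC := by
  intro n s hs hT
  refine ⟨hs, hE s ?_ hT.1, hC s hs.1 hT.2⟩
  rw [hs.2]
  exact even_two_mul n

end Pool.Agent.T2H20.FB
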