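import Pool.Agent.T2H20.FB.Stm

/-! # FB package TRQ (project FB of helper20, MP_1c575b_co; proof by helper18) -/

namespace Pool.Agent.T2H20.FB

open Multiset

theorem T_TRQ (hN : P_EGN) (hO : P_OPS) (hS : P_SHF) (hT : P_TFC) (hX : P_NEAR) : P_TRQ := by
  classical
  rintro n k q hk hq s ⟨⟨hpos, hsum⟩, hforc⟩ h1 hcount
  obtain ⟨r, hr⟩ : ∃ r, r = s - replicate q k := ⟨_, rfl⟩
  have hle : replicate q k ≤ s := Multiset.le_count_iff_replicate_le.1 (by omega)
  have hsr : s = r + replicate q k := by rw [hr]; exact (Multiset.sub_add_cancel hle).symm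
  have hcr : ∀ x, r.count x = s.count x - if x = k then q else 0 := by
    intro x
    rw [hr, Multiset.count_sub, Multiset.count_replicate]
    congr 1
    by_cases h : x = k
    · simp [h]
    · simp [h, Ne.symm h]
  have hks : k ∈ s := Multiset.one_le_count_iff_mem.1 (by omega)
  obtain ⟨d, hds, hdmax⟩ : ∃ d ∈ s, ∀ y ∈ s, y ≤ d := by
    obtain ⟨d, hd, h⟩ := Finset.exists_max_image s.toFinset id ⟨k, Multiset.mem_toFinset.2 hks⟩
    exact ⟨d, Multiset.mem_toFinset.1 hd, fun y hy => h y (Multiset.mem_toFinset.2 hy)⟩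
  have hdr : d ∈ r := by
    rw [← Multiset.one_le_count_iff_mem, hcr]
    have h2 : 1 ≤ s.count d := Multiset.one_le_count_iff_mem.2 hds
    by_cases h : d = k
    · rw [if_pos h, h]
      omega
    · rw [if_neg h]
      omega
  have hrs : r ≤ s := by rw [hr]; exact tsub_le_self
  have hmxr : IsMx r d := ⟨hdr, fun y hy => hdmax y (Multiset.mem_of_le hrs hy)⟩
  have hkd : k ≤ d := hdmax k hks
  -- the function on submultisets of `r`
  have hF : ∀ T ≤ r, F s T = F r T + (q : ℤ) * ((min k (card T) : ℕ) : ℤ) := by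
    intro T hT
    have h2 := hO.2.2.2 r T (replicate q k) hT
    rw [← hsr] at h2
    rw [h2]
    simp
  obtain ⟨-, hpositive⟩ := hN s hforc.1
  have hlow : ∀ T ≤ r, -((q : ℤ) * k) ≤ F r T := by
    intro T hT
    have h2 := hpositive T (hT.trans hrs)
    rw [hF T hT] at h2
    have h3 : ((min k (card T) : ℕ) : ℤ) ≤ k := by exact_mod_cast min_le_left _ _
    have h4 : (q : ℤ) * ((min k (card T) : ℕ) : ℤ) ≤ q * k :=
      mul_le_mul_of_nonneg_left h3 (by positivity)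
    linarith
  obtain ⟨T1, hT1, hT10, hT1k, hT1F⟩ := hX s k (by omega) hforc (by
    have : 2 * (2 + 1) ≤ k * (k + 1) := Nat.mul_le_mul hk (by omega)
    omega)
  have hT1r : T1 ≤ r := by
    rw [Multiset.le_iff_count]
    intro x
    rw [hcr]
    have h2 := Multiset.le_iff_count.1 hT1 x
    by_cases h : x = k
    · rw [if_pos h, h]
      omega
    · rw [if_neg h]
      omega
  have hup : F r T1 ≤ -1 := by
    have h2 := hF T1 hT1r
    have hc1 : 1 ≤ card T1 := Multiset.card_pos.2 hT10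
    have h3 : (1 : ℤ) ≤ ((min k (card T1) : ℕ) : ℤ) := by
      exact_mod_cast le_min (by omega : 1 ≤ k) hc1
    have h4 : (q : ℤ) * 1 ≤ (q : ℤ) * ((min k (card T1) : ℕ) : ℤ) :=
      mul_le_mul_of_nonneg_left h3 (by positivity)
    have h5 : (k : ℤ) * (k + 1) ≤ q := by exact_mod_cast hq
    linarith
  obtain ⟨c, ⟨T0, hT0, hT00, hT0c⟩, hcmin⟩ :=
    Int.exists_least_of_bdd (P := fun z => ∃ T ≤ r, T ≠ 0 ∧ F r T = z)
      ⟨-((q : ℤ) * k), fun z ⟨T, hT, _, hz⟩ => hz ▸ hlow T hT⟩ ⟨_, T1, hT1r, hT10, rfl⟩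
  have hc1 : c ≤ -1 := (hcmin _ ⟨T1, hT1r, hT10, rfl⟩).trans hup
  have hc2 : -((q : ℤ) * k) ≤ c := hT0c ▸ hlow T0 hT0
  -- the choice of `a`, `b`
  obtain ⟨a, b, hab, hab2, hc3, hc4⟩ : ∃ a b : ℕ, a + b = k * q ∧ k * q ≤ 2 * a ∧
      0 ≤ c + a - b ∧ c + a - b ≤ 1 := by
    obtain ⟨y, hy⟩ : ∃ y : ℕ, (y : ℤ) = -c := ⟨(-c).toNat, by omega⟩
    have hyK : y ≤ k * q := by
      have : (y : ℤ) ≤ (k : ℤ) * q := by linarith
      exact_mod_cast this
    obtain ⟨K, hK⟩ : ∃ K, K = k * q := ⟨_, rfl⟩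
    rw [← hK] at hyK ⊢
    by_cases hpar : (K + y) % 2 = 0
    · exact ⟨(K + y) / 2, (K - y) / 2, by omega, by omega, by omega, by omega⟩
    · exact ⟨(K + y + 1) / 2, (K - y - 1) / 2, by omega, by omega, by omega, by omega⟩
  refine ⟨d, a, b, ⟨hds, hdmax⟩, hr ▸ hmxr, hab, hab2, ?_⟩
  rw [← hr]
  obtain ⟨hs1, hs2⟩ := hS r d a b c hmxr (by omega)
  have hs1' := hs1 fun T hT hT0' => hcmin _ ⟨T, hT, hT0', rfl⟩
  obtain ⟨T2, hT2, hT20, hT2F⟩ := hs2 ⟨T0, hT0, hT00, hT0c.le⟩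
  refine hT n _ ⟨?_, ?_⟩ ⟨?_, T2, hT2, hT20, hT2F.trans hc4⟩
  · intro x hx
    unfold sh at hx
    rw [Multiset.mem_cons, Multiset.mem_add] at hx
    rcases hx with hx | hx | hx
    · omega
    · exact hpos x (Multiset.mem_of_le hrs (Multiset.mem_of_mem_erase hx))
    · rw [Multiset.eq_of_mem_replicate hx]
      exact one_pos
  · unfold sh
    rw [Multiset.sum_cons, Multiset.sum_add, Multiset.sum_replicate]
    have h2 : d + (r.erase d).sum = r.sum := by
      rw [← Multiset.sum_cons, Multiset.cons_erase hdr]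
    have h3 : s.sum = r.sum + q * k := by
      conv_lhs => rw [hsr]
      rw [Multiset.sum_add, Multiset.sum_replicate, smul_eq_mul]
    rw [hsum] at h3
    rw [mul_comm q k] at h3
    simp only [smul_eq_mul, mul_one]
    omega
  · intro T hTs
    by_cases hT0' : T = 0
    · rw [hT0']
      simp [F]
    · exact hc3.trans (hs1' T hTs hT0')

end Pool.Agent.T2H20.FB
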