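import Pool.Agent.T2H20.FB.T_BND
import Pool.Agent.T2H20.FB.T_CN1
import Pool.Agent.T2H20.FB.T_CN2
import Pool.Agent.T2H20.FB.T_CON
import Pool.Agent.T2H20.FB.T_DIS
import Pool.Agent.T2H20.FB.T_EGN
import Pool.Agent.T2H20.FB.T_EGS
import Pool.Agent.T2H20.FB.T_EXV
import Pool.Agent.T2H20.FB.T_LIM
import Pool.Agent.T2H20.FB.T_NEAR
import Pool.Agent.T2H20.FB.T_NO1
import Pool.Agent.T2H20.FB.T_OPS
import Pool.Agent.T2H20.FB.T_PAR
import Pool.Agent.T2H20.FB.T_POL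
import Pool.Agent.T2H20.FB.T_POS
import Pool.Agent.T2H20.FB.T_PS0
import Pool.Agent.T2H20.FB.T_PSI
import Pool.Agent.T2H20.FB.T_SHF
import Pool.Agent.T2H20.FB.T_SPL
import Pool.Agent.T2H20.FB.T_STP
import Pool.Agent.T2H20.FB.T_SUB
import Pool.Agent.T2H20.FB.T_TFC
import Pool.Agent.T2H20.FB.T_TRQ

/-! # Forcibly biconnected graphical partitions: the packages put together -/

namespace Pool.Agent.T2H20.FB

theorem main :
    (∀ n, 1 ≤ n → 0 < gf 1 n) ∧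
    Filter.Tendsto (fun n => (gf 2 n : ℝ) / gf 1 n) Filter.atTop (nhds 0) ∧
    Filter.Tendsto (fun n => (gf 2 n : ℝ) / g n) Filter.atTop (nhds 0) := by
  have hPAR : P_PAR := T_PAR
  have hSUB : P_SUB := T_SUB
  have hOPS : P_OPS := T_OPS
  have hNO1 : P_NO1 := T_NO1
  have hDIS : P_DIS := T_DIS
  have hEGS : P_EGS := T_EGS hSUB
  have hEGN : P_EGN := T_EGN hSUB
  have hCON : P_CON := T_CON hSUB
  have hSHF : P_SHF := T_SHF hOPS
  have hSTP : P_STP := T_STP hOPS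
  have hTFC : P_TFC := T_TFC hEGS hCON
  have hNEAR : P_NEAR := T_NEAR hEGS hDIS hEGN hOPS
  have hTRQ : P_TRQ := T_TRQ hEGN hOPS hSHF hTFC hNEAR
  have hCN1 : P_CN1 := T_CN1 hTRQ hPAR
  have hSPL : P_SPL := T_SPL hEGS hEGN hOPS
  have hEXV : P_EXV := T_EXV hEGN
  have hPS0 : P_PS0 := T_PS0 hEGN hSTP hTFC
  have hPSI : P_PSI := T_PSI hEGS hEGN hSHF hTFC hPS0
  have hPOL : P_POL := T_POL hPSI hPAR
  have hCN2 : P_CN2 := T_CN2 hSPL hEXV hPAR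
  have hPOS : P_POS := T_POS hTFC hPAR
  have hBND : P_BND := T_BND hNO1 hPAR
  exact T_LIM hCN1 hCN2 hPOL hBND hPAR hPOS

end Pool.Agent.T2H20.FB
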