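import Mathlib
import Pool.Agent.H51.EG2

/-! # Forcibly biconnected graphical partitions: definitions and statements of the packages

`F s T` is the Erdos-Gallai function of a multiset `s` and a submultiset `T` of it. -/

namespace Pool.Agent.T2H20.FB

open Multiset

/-- the multiset of the vertex degrees of a graph -/
noncomputable def degs {m : ℕ} (G : SimpleGraph (Fin m)) : Multiset ℕ :=
  (Finset.univ : Finset (Fin m)).val.map (fun v => (G.neighborSet v).ncard)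

/-- `s` is the degree multiset of a simple graph -/
def Graphical (s : Multiset ℕ) : Prop :=
  ∃ (m : ℕ) (G : SimpleGraph (Fin m)), degs G = s

/-- more than `k` vertices, and deleting fewer than `k` vertices leaves a connected graph -/
def KConn (k : ℕ) {m : ℕ} (G : SimpleGraph (Fin m)) : Prop :=
  k < m ∧ ∀ S : Finset (Fin m), S.card < k → (G.induce ((S : Set (Fin m))ᶜ)).Connected

/-- graphical, and every realization is `k`-connected -/
def Forc (k : ℕ) (s : Multiset ℕ) : Prop :=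
  Graphical s ∧ ∀ (m : ℕ) (G : SimpleGraph (Fin m)), degs G = s → KConn k G

/-- number of graphical partitions of `2 n` -/
noncomputable def g (n : ℕ) : ℕ :=
  Nat.card {p : Nat.Partition (2 * n) // Graphical p.parts}

/-- number of forcibly `k`-connected graphical partitions of `2 n` -/
noncomputable def gf (k n : ℕ) : ℕ :=
  Nat.card {p : Nat.Partition (2 * n) // Forc k p.parts}

/-! ## internal notions -/

/-- the Erdos-Gallai function -/
def F (s T : Multiset ℕ) : ℤ :=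
  (T.card : ℤ) * ((T.card : ℤ) - 1) + (((s - T).map (fun y => min y T.card)).sum : ℤ) - (T.sum : ℤ)

/-- partitions of `N` as multisets -/
def Par (N : ℕ) : Set (Multiset ℕ) := {s | (∀ x ∈ s, 0 < x) ∧ s.sum = N}

def GG (n : ℕ) : Set (Multiset ℕ) := {s | s ∈ Par (2 * n) ∧ Graphical s}

def G1 (n : ℕ) : Set (Multiset ℕ) := {s | s ∈ Par (2 * n) ∧ Forc 1 s}

def G2 (n : ℕ) : Set (Multiset ℕ) := {s | s ∈ Par (2 * n) ∧ Forc 2 s}

/-- nonnegative Erdos-Gallai function with a nearly tight set -/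
def Tight (s : Multiset ℕ) : Prop :=
  (∀ T ≤ s, 0 ≤ F s T) ∧ ∃ T ≤ s, T ≠ 0 ∧ F s T ≤ 1

/-- `d` is the largest element -/
def IsMx (s : Multiset ℕ) (d : ℕ) : Prop := d ∈ s ∧ ∀ y ∈ s, y ≤ d

/-- shift: the largest part `d` becomes `d + b`, and `a` ones are added -/
def sh (r : Multiset ℕ) (d a b : ℕ) : Multiset ℕ :=
  (d + b) ::ₘ (r.erase d + replicate a 1)

/-- middle parts -/
def mid (K : ℕ) (A : ℕ → ℕ) : Multiset ℕ := ∑ j ∈ Finset.Icc 2 K, replicate (A j) j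

/-- recovery maps -/
def rec0 (y T : ℕ) (s : Multiset ℕ) : Multiset ℕ :=
  (s.sup - T) ::ₘ (s.erase s.sup).map (fun x => if x < y then x + 1 else x)

def rec1 (t : ℕ) (s : Multiset ℕ) : Multiset ℕ :=
  (s.sup - t) ::ₘ (s.erase s.sup + replicate t 1)

/-- the exceptional partitions: no ones and few parts below `4 K` -/
def EE (K M n : ℕ) : Set (Multiset ℕ) :=
  {s | s ∈ GG n ∧ 1 ∉ s ∧ ∀ j, 2 ≤ j → j < 4 * K → s.count j < M}

/-- the partitions with many parts equal to `k` -/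
def FF (k M n : ℕ) : Set (Multiset ℕ) :=
  {s | s ∈ G1 n ∧ 1 ∉ s ∧ M ≤ s.count k}

/-! ## packages -/

/-- PAR: partitions as multisets -/
def P_PAR : Prop :=
  (∀ N, (Par N).Finite) ∧ ∀ (N : ℕ) (Q : Multiset ℕ → Prop),
    Nat.card {p : Nat.Partition N // Q p.parts} = ({s | s ∈ Par N ∧ Q s} : Set (Multiset ℕ)).ncard

/-- SUB: submultisets of an image are images of subsets, and the value of `F` on them -/
def P_SUB : Prop :=
  (∀ (m : ℕ) (f : Fin m → ℕ) (T : Multiset ℕ), T ≤ (Finset.univ : Finset (Fin m)).val.map f →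
    ∃ U : Finset (Fin m), U.val.map f = T) ∧
  ∀ (m : ℕ) (f : Fin m → ℕ) (U : Finset (Fin m)),
    U.val.map f ≤ (Finset.univ : Finset (Fin m)).val.map f ∧
    F ((Finset.univ : Finset (Fin m)).val.map f) (U.val.map f)
      = (U.card : ℤ) * ((U.card : ℤ) - 1) + ∑ i ∈ Uᶜ, ((min (f i) U.card : ℕ) : ℤ) - ∑ i ∈ U, (f i : ℤ)

/-- EGS: Erdos-Gallai for multisets -/
def P_EGS : Prop :=
  ∀ s : Multiset ℕ, Even s.sum → (∀ T ≤ s, 0 ≤ F s T) → Graphical s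

/-- EGN: necessity -/
def P_EGN : Prop :=
  ∀ s : Multiset ℕ, Graphical s → Even s.sum ∧ ∀ T ≤ s, 0 ≤ F s T

/-- CON: a nearly tight set forces connectedness -/
def P_CON : Prop :=
  ∀ s : Multiset ℕ, (∀ x ∈ s, 0 < x) → (∃ T ≤ s, T ≠ 0 ∧ F s T ≤ 1) →
    ∀ (m : ℕ) (G : SimpleGraph (Fin m)), degs G = s → KConn 1 G

/-- DIS: no complete component can be split off -/
def P_DIS : Prop :=
  ∀ (s : Multiset ℕ) (k : ℕ), Forc 1 s → replicate (k + 1) k ≤ s → s ≠ replicate (k + 1) k →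
    ¬ Graphical (s - replicate (k + 1) k)

/-- NO1: no ones in forcibly biconnected partitions -/
def P_NO1 : Prop := ∀ s : Multiset ℕ, Forc 2 s → 1 ∉ s ∧ Forc 1 s

/-- OPS: swapping and removing elements of `T` -/
def P_OPS : Prop :=
  (∀ s T : Multiset ℕ, T ≤ s → ∀ x ∈ T, ∀ y ∈ s - T, x ≤ y → F s (y ::ₘ T.erase x) ≤ F s T) ∧
  (∀ s T : Multiset ℕ, T ≤ s → ∀ x ∈ T, x + 1 ≤ T.card → F s (T.erase x) ≤ F s T) ∧
  (∀ s T : Multiset ℕ, T ≤ s → ∀ x ∈ T, F s (T.erase x) ≤ F s T + 2 * (x : ℤ)) ∧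
  (∀ s T u : Multiset ℕ, T ≤ s → F (s + u) T = F s T + ((u.map (fun y => min y T.card)).sum : ℤ))

/-- SHF: the shift formula -/
def P_SHF : Prop :=
  ∀ (r : Multiset ℕ) (d a b : ℕ) (c : ℤ), IsMx r d → 1 ≤ d →
    ((∀ T ≤ r, T ≠ 0 → c ≤ F r T) → ∀ T ≤ sh r d a b, T ≠ 0 → c + a - b ≤ F (sh r d a b) T) ∧
    ((∃ T ≤ r, T ≠ 0 ∧ F r T ≤ c) → ∃ T ≤ sh r d a b, T ≠ 0 ∧ F (sh r d a b) T ≤ c + a - b)

/-- STP: moving one unit to the largest part lowers the minimum by at most two -/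
def P_STP : Prop :=
  ∀ (R : Multiset ℕ) (D x : ℕ) (c : ℤ), 1 ≤ x → x ≤ D → (∀ y ∈ R, y ≤ D) →
    (∀ T ≤ D ::ₘ x ::ₘ R, T ≠ 0 → c ≤ F (D ::ₘ x ::ₘ R) T) →
    ∀ T ≤ (D + 1) ::ₘ (x - 1) ::ₘ R, T ≠ 0 → c - 2 ≤ F ((D + 1) ::ₘ (x - 1) ::ₘ R) T

/-- TFC: tight partitions are forcibly connected -/
def P_TFC : Prop := ∀ (n : ℕ) (s : Multiset ℕ), s ∈ Par (2 * n) → Tight s → s ∈ G1 n

/-- NEAR: a nearly tight set with few parts `k` -/
def P_NEAR : Prop :=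
  ∀ (s : Multiset ℕ) (k : ℕ), 1 ≤ k → Forc 1 s → k + 2 ≤ s.count k →
    ∃ T ≤ s, T ≠ 0 ∧ T.count k ≤ k ∧ F s T ≤ (k : ℤ) * (k + 1) - 1

/-- TRQ: the transformation of `q` parts `k` -/
def P_TRQ : Prop :=
  ∀ (n k q : ℕ), 2 ≤ k → k * (k + 1) ≤ q → ∀ s ∈ G1 n, 1 ∉ s → q + k + 1 ≤ s.count k →
    ∃ d a b : ℕ, IsMx s d ∧ IsMx (s - replicate q k) d ∧ a + b = k * q ∧ k * q ≤ 2 * a ∧
      sh (s - replicate q k) d a b ∈ G1 n

/-- CN1: counting partitions with many parts `k` -/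
def P_CN1 : Prop :=
  ∀ (n k J j0 : ℕ), 2 ≤ k → k * (k + 1) ≤ 3 ^ j0 →
    J * (FF k (3 ^ (j0 + J) + k + 1) n).ncard ≤ (G1 n).ncard

/-- SPL: replacing parts `v` by small parts -/
def P_SPL : Prop :=
  ∀ (K : ℕ), 2 ≤ K → ∀ (s : Multiset ℕ) (d : ℕ), Graphical s → IsMx s d →
    ∀ (v c a : ℕ) (A : ℕ → ℕ), 4 * K ≤ v → replicate c v ≤ s.erase d → 8 * K ^ 2 ≤ c * v →
      a + ∑ j ∈ Finset.Icc 2 K, j * A j = c * v → c * v ≤ 2 * a →
      Graphical ((s - replicate c v) + (replicate a 1 + mid K A))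

/-- EXV: a value with a large total mass -/
def P_EXV : Prop :=
  ∀ (K M : ℕ), ∃ n0 : ℕ, ∀ n, n0 ≤ n → ∀ s ∈ EE K M n, ∃ d v c : ℕ, IsMx s d ∧ 4 * K ≤ v ∧
    replicate c v ≤ s.erase d ∧ n ≤ 8 * (c * v) ^ 2 ∧ 8 * K ^ 2 ≤ c * v

/-- PS0: every graphical partition without ones comes from a forcibly connected one -/
def P_PS0 : Prop :=
  ∀ n, 1 ≤ n → ∀ s ∈ GG n, 1 ∉ s → ∃ y ≤ 2 * n, ∃ T ≤ 2 * n, ∃ s' ∈ G1 n, rec0 y T s' = s

/-- PSI: every graphical partition comes from a forcibly connected one -/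
def P_PSI : Prop :=
  ∀ n, 1 ≤ n → ∀ s ∈ GG n, ∃ t ≤ 2 * n, ∃ y ≤ 2 * n, ∃ T ≤ 2 * n, ∃ s' ∈ G1 n,
    rec1 t s' = s ∨ rec1 t (rec0 y T s') = s

/-- POL: graphical partitions are at most polynomially more than forcibly connected ones -/
def P_POL : Prop := ∀ n, 1 ≤ n → (GG n).ncard ≤ 2 * (2 * n + 1) ^ 3 * (G1 n).ncard

/-- CN2: the exceptional partitions are few -/
def P_CN2 : Prop :=
  ∀ (K M : ℕ), 2 ≤ K → ∃ n0 : ℕ, ∀ n, n0 ≤ n → ∀ A : ℕ, 32 * K ^ 4 * A ^ 2 ≤ n →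
    A ^ (K - 1) * (EE K M n).ncard ≤ (2 * n + 1) ^ 2 * M ^ (K - 1) * (GG n).ncard

/-- POS: there are forcibly connected partitions -/
def P_POS : Prop := ∀ n, 1 ≤ n → 0 < (G1 n).ncard

/-- BND: splitting the forcibly biconnected partitions -/
def P_BND : Prop :=
  ∀ K M n : ℕ, (G2 n).ncard ≤ (EE K M n).ncard + ∑ k ∈ Finset.Ico 2 (4 * K), (FF k M n).ncard

/-- LIM: the limit, from the counting results -/
def P_LIM : Prop :=
  P_CN1 → P_CN2 → P_POL → P_BND → P_PAR → P_POS →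
    (∀ n, 1 ≤ n → 0 < gf 1 n) ∧
    Filter.Tendsto (fun n => (gf 2 n : ℝ) / gf 1 n) Filter.atTop (nhds 0) ∧
    Filter.Tendsto (fun n => (gf 2 n : ℝ) / g n) Filter.atTop (nhds 0)

end Pool.Agent.T2H20.FB
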