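import Pool.Agent.T2H20.FB.Stm

/-! # FB package BND (project FB of helper20, MP_1c575b_co)

see P_BND: every s ∈ G2 n is in GG n and G1 n with 1 ∉ s (P_NO1); either count j s < M for all 2 ≤ j < 4K (then s ∈ EE) or M ≤ count k s for some such k (then s ∈ FF k M n).
Set.ncard_le_ncard, Set.ncard_union_le, finiteness by P_PAR.
-/

namespace Pool.Agent.T2H20.FB

open Multiset

theorem T_BND (h1 : P_NO1) (hP : P_PAR) : P_BND := by
  classical
  intro K M n
  have hfin : ∀ X : Set (Multiset ℕ), (∀ s ∈ X, s ∈ Par (2 * n)) → X.Finite := fun X hX =>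
    (hP.1 (2 * n)).subset hX
  have hEE : (EE K M n).Finite := hfin _ fun s hs => hs.1.1
  have hFF : ∀ k, (FF k M n).Finite := fun k => hfin _ fun s hs => hs.1.1
  have hsub : G2 n ⊆ EE K M n ∪ ⋃ k ∈ Finset.Ico 2 (4 * K), FF k M n := by
    intro s hs
    obtain ⟨hno, hf1⟩ := h1 s hs.2
    by_cases h : ∀ j, 2 ≤ j → j < 4 * K → s.count j < M
    · exact Or.inl ⟨⟨hs.1, hs.2.1⟩, hno, h⟩
    · push Not at h
      obtain ⟨k, hk2, hk4, hkM⟩ := h
      refine Or.inr ?_
      rw [Set.mem_iUnion₂]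
      exact ⟨k, Finset.mem_Ico.2 ⟨hk2, hk4⟩, ⟨hs.1, hf1⟩, hno, hkM⟩
  have hU : ∀ S : Finset ℕ, (⋃ k ∈ S, FF k M n).ncard ≤ ∑ k ∈ S, (FF k M n).ncard := by
    intro S
    induction S using Finset.induction_on with
    | empty => simp
    | insert a S ha ih =>
      rw [Finset.set_biUnion_insert, Finset.sum_insert ha]
      exact (Set.ncard_union_le _ _).trans (Nat.add_le_add_left ih _)
  have hUf : (⋃ k ∈ Finset.Ico 2 (4 * K), FF k M n).Finite :=
    Set.Finite.biUnion (Finset.finite_toSet _) fun k _ => hFF k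
  calc (G2 n).ncard ≤ (EE K M n ∪ ⋃ k ∈ Finset.Ico 2 (4 * K), FF k M n).ncard :=
        Set.ncard_le_ncard hsub (hEE.union hUf)
    _ ≤ (EE K M n).ncard + (⋃ k ∈ Finset.Ico 2 (4 * K), FF k M n).ncard := Set.ncard_union_le _ _
    _ ≤ _ := Nat.add_le_add_left (hU _) _

end Pool.Agent.T2H20.FB
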