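import Pool.Agent.T2H20.FB.Stm

/-! # FB package POL (project FB of helper20, MP_1c575b_co)

GG n ⊆ image of (Bool × [0,2n]³ × G1 n) under (flag, t, y, T, s') ↦ rec1 t s' or rec1 t (rec0 y T s'). G1 n and GG n are finite (subsets of Par (2n)).
ncard of the image ≤ 2 (2n+1)³ ncard (G1 n).
-/

namespace Pool.Agent.T2H20.FB

open Multiset

theorem T_POL (hI : P_PSI) (hP : P_PAR) : P_POL := by
  classical
  intro n hn
  have hfin1 : (G1 n).Finite := (hP.1 (2 * n)).subset (fun s hs => hs.1)
  let N : Finset ℕ := Finset.range (2 * n + 1)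
  let I : Finset (Bool × ℕ × ℕ × ℕ × Multiset ℕ) :=
    (Finset.univ : Finset Bool) ×ˢ (N ×ˢ (N ×ˢ (N ×ˢ hfin1.toFinset)))
  let f : Bool × ℕ × ℕ × ℕ × Multiset ℕ → Multiset ℕ := fun x =>
    if x.1 then rec1 x.2.1 x.2.2.2.2 else rec1 x.2.1 (rec0 x.2.2.1 x.2.2.2.1 x.2.2.2.2)
  have hsub : GG n ⊆ ((I.image f : Finset (Multiset ℕ)) : Set (Multiset ℕ)) := by
    intro s hs
    obtain ⟨t, ht, y, hy, T, hT, s', hs', h⟩ := hI n hn s hs
    rw [Finset.mem_coe, Finset.mem_image]
    have hI' : ∀ b : Bool, (b, t, y, T, s') ∈ I := by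
      intro b
      simp only [I, N, Finset.mem_product, Finset.mem_univ, Finset.mem_range, true_and,
        Set.Finite.mem_toFinset]
      exact ⟨by omega, by omega, by omega, hs'⟩
    rcases h with h | h
    · exact ⟨(true, t, y, T, s'), hI' true, by simpa [f] using h⟩
    · exact ⟨(false, t, y, T, s'), hI' false, by simpa [f] using h⟩
  calc (GG n).ncard ≤ ((I.image f : Finset (Multiset ℕ)) : Set (Multiset ℕ)).ncard :=
        Set.ncard_le_ncard hsub (Finset.finite_toSet _)
    _ = (I.image f).card := Set.ncard_coe_finset _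
    _ ≤ I.card := Finset.card_image_le
    _ = 2 * (2 * n + 1) ^ 3 * (G1 n).ncard := by
        simp only [I, N, Finset.card_product, Finset.card_range, Finset.card_univ,
          Fintype.card_bool]
        rw [Set.ncard_eq_toFinset_card _ hfin1]
        ring

end Pool.Agent.T2H20.FB
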